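import Mathlib

/-! Travel times along a cycle of a permutation, and the elementary reconnections. -/

namespace Pool.Agent.V11208.UB
open Finset BigOperators

section time
variable {V : Type*}

/-- `v` lies on the cycle of `b` -/
def Reach (ρ : Equiv.Perm V) (b v : V) : Prop := ∃ i : ℕ, (ρ ^ i) b = v

open Classical in
/-- travel time from `b` to `v` -/
noncomputable def tm (ρ : Equiv.Perm V) (b v : V) : ℕ :=
  if h : ∃ i : ℕ, (ρ ^ i) b = v then Nat.find h else 0

theorem tm_spec {ρ : Equiv.Perm V} {b v : V} (h : Reach ρ b v) : (ρ ^ (tm ρ b v)) b = v := by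
  classical
  have h' : ∃ i : ℕ, (ρ ^ i) b = v := h
  unfold tm
  rw [dif_pos h']
  exact Nat.find_spec h'

theorem tm_le {ρ : Equiv.Perm V} {b v : V} (i : ℕ) (h : (ρ ^ i) b = v) : tm ρ b v ≤ i := by
  classical
  unfold tm
  rw [dif_pos ⟨i, h⟩]
  exact Nat.find_min' _ h

theorem reach_base (ρ : Equiv.Perm V) (b : V) : Reach ρ b b := ⟨0, rfl⟩

theorem tm_base (ρ : Equiv.Perm V) (b : V) : tm ρ b b = 0 :=
  Nat.le_zero.1 (tm_le 0 rfl)

theorem Reach.step {ρ : Equiv.Perm V} {b v : V} (h : Reach ρ b v) : Reach ρ b (ρ v) := by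
  obtain ⟨i, hi⟩ := h
  exact ⟨i + 1, by rw [pow_succ', Equiv.Perm.mul_apply, hi]⟩

theorem tm_inj {ρ : Equiv.Perm V} {b v w : V} (hv : Reach ρ b v) (hw : Reach ρ b w)
    (h : tm ρ b v = tm ρ b w) : v = w := by
  rw [← tm_spec hv, ← tm_spec hw, h]

theorem tm_step {ρ : Equiv.Perm V} {b v : V} (h : Reach ρ b v) (hb : ρ v ≠ b) :
    tm ρ b (ρ v) = tm ρ b v + 1 := by
  apply le_antisymm
  · apply tm_le
    rw [pow_succ', Equiv.Perm.mul_apply, tm_spec h]
  · have h1 := tm_spec h.step
    rcases Nat.eq_zero_or_pos (tm ρ b (ρ v)) with h0 | h0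
    · rw [h0] at h1
      exact absurd h1.symm hb
    · obtain ⟨j, hj⟩ : ∃ j, tm ρ b (ρ v) = j + 1 := ⟨_, (Nat.succ_pred_eq_of_pos h0).symm⟩
      rw [hj] at h1 ⊢
      rw [pow_succ', Equiv.Perm.mul_apply] at h1
      have := tm_le (ρ := ρ) (b := b) (v := v) j (ρ.injective h1)
      omega

theorem orbit_induction {ρ : Equiv.Perm V} {b : V} (P : V → Prop) (h0 : P b)
    (hs : ∀ v, Reach ρ b v → P v → ρ v ≠ b → P (ρ v)) : ∀ v, Reach ρ b v → P v := by
  have key : ∀ n : ℕ, ∀ v, Reach ρ b v → tm ρ b v = n → P v := by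
    intro n
    induction n with
    | zero =>
      intro v hv hn
      have := tm_spec hv
      rw [hn] at this
      rw [← this]; exact h0
    | succ n ih =>
      intro v hv hn
      have h1 := tm_spec hv
      rw [hn, pow_succ', Equiv.Perm.mul_apply] at h1
      set w := (ρ ^ n) b with hw
      have hwr : Reach ρ b w := ⟨n, rfl⟩
      have hvb : ρ w ≠ b := by
        intro h
        rw [← h1, h, tm_base] at hn
        omega
      have htw : tm ρ b w = n := by
        have := tm_step hwr hvb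
        rw [h1, hn] at this
        omega
      rw [← h1]
      exact hs w hwr (ih w hwr htw) hvb
  intro v hv
  exact key _ v hv rfl

theorem tm_last {ρ : Equiv.Perm V} {b v w : V} (hv : Reach ρ b v) (hb : ρ v = b)
    (hw : Reach ρ b w) : tm ρ b w ≤ tm ρ b v := by
  by_contra hlt
  push Not at hlt
  -- (ρ^(t v + 1)) b = b, so reduce
  have h1 : (ρ ^ (tm ρ b v + 1)) b = b := by
    rw [pow_succ', Equiv.Perm.mul_apply, tm_spec hv, hb]
  have h2 : (ρ ^ (tm ρ b w - (tm ρ b v + 1))) b = w := by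
    have h3 := tm_spec hw
    have h4 : tm ρ b w = (tm ρ b w - (tm ρ b v + 1)) + (tm ρ b v + 1) := by omega
    rw [h4, pow_add, Equiv.Perm.mul_apply, h1] at h3
    exact h3
  have := tm_le _ h2
  omega

end time

section tau
variable {V : Type*} {C : Type*}

open Classical in
/-- the reconnection at the crossings in `T`: exchanges `o c` and `u c` for `c ∈ T` -/
noncomputable def tauFun (o u : C → V) (T : Finset C) (v : V) : V :=
  if h : ∃ c ∈ T, o c = v then u h.choose
  else if h : ∃ c ∈ T, u c = v then o h.choose else v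

/-- all crossing points are distinct -/
structure Distinct (o u : C → V) : Prop where
  oo : ∀ c d, o c = o d → c = d
  uu : ∀ c d, u c = u d → c = d
  ou : ∀ c d, o c ≠ u d

theorem tauFun_o {o u : C → V} (hd : Distinct o u) (T : Finset C) (c : C) (hc : c ∈ T) :
    tauFun o u T (o c) = u c := by
  classical
  unfold tauFun
  have h : ∃ d ∈ T, o d = o c := ⟨c, hc, rfl⟩
  rw [dif_pos h]
  rw [hd.oo _ _ h.choose_spec.2]

theorem tauFun_u {o u : C → V} (hd : Distinct o u) (T : Finset C) (c : C) (hc : c ∈ T) :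
    tauFun o u T (u c) = o c := by
  classical
  unfold tauFun
  have h1 : ¬ ∃ d ∈ T, o d = u c := by
    rintro ⟨d, _, h⟩; exact hd.ou _ _ h
  have h : ∃ d ∈ T, u d = u c := ⟨c, hc, rfl⟩
  rw [dif_neg h1, dif_pos h]
  rw [hd.uu _ _ h.choose_spec.2]

theorem tauFun_o_not {o u : C → V} (hd : Distinct o u) (T : Finset C) (c : C) (hc : c ∉ T) :
    tauFun o u T (o c) = o c := by
  classical
  unfold tauFun
  have h1 : ¬ ∃ d ∈ T, o d = o c := by
    rintro ⟨d, hdT, h⟩; rw [hd.oo _ _ h] at hdT; exact hc hdT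
  have h2 : ¬ ∃ d ∈ T, u d = o c := by
    rintro ⟨d, _, h⟩; exact hd.ou _ _ h.symm
  rw [dif_neg h1, dif_neg h2]

theorem tauFun_u_not {o u : C → V} (hd : Distinct o u) (T : Finset C) (c : C) (hc : c ∉ T) :
    tauFun o u T (u c) = u c := by
  classical
  unfold tauFun
  have h1 : ¬ ∃ d ∈ T, o d = u c := by
    rintro ⟨d, _, h⟩; exact hd.ou _ _ h
  have h2 : ¬ ∃ d ∈ T, u d = u c := by
    rintro ⟨d, hdT, h⟩; rw [hd.uu _ _ h] at hdT; exact hc hdT
  rw [dif_neg h1, dif_neg h2]

theorem tauFun_other {o u : C → V} (T : Finset C) (v : V) (h1 : ∀ c, o c ≠ v)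
    (h2 : ∀ c, u c ≠ v) : tauFun o u T v = v := by
  classical
  unfold tauFun
  rw [dif_neg (by rintro ⟨c, _, h⟩; exact h1 c h), dif_neg (by rintro ⟨c, _, h⟩; exact h2 c h)]

theorem tau_cases {o u : C → V} (v : V) :
    (∃ c, o c = v) ∨ (∃ c, u c = v) ∨ ((∀ c, o c ≠ v) ∧ (∀ c, u c ≠ v)) := by
  by_cases h1 : ∃ c, o c = v
  · exact Or.inl h1
  · by_cases h2 : ∃ c, u c = v
    · exact Or.inr (Or.inl h2)
    · push Not at h1 h2
      exact Or.inr (Or.inr ⟨h1, h2⟩)

theorem tauFun_comp {o u : C → V} [DecidableEq C] (hd : Distinct o u) (S T : Finset C) (v : V) :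
    tauFun o u S (tauFun o u T v) = tauFun o u (symmDiff S T) v := by
  rcases tau_cases (o := o) (u := u) v with ⟨c, rfl⟩ | ⟨c, rfl⟩ | ⟨h1, h2⟩
  · by_cases hS : c ∈ S <;> by_cases hT : c ∈ T
    · rw [tauFun_o hd T c hT, tauFun_u hd S c hS, tauFun_o_not hd]
      simp [Finset.mem_symmDiff, hS, hT]
    · rw [tauFun_o_not hd T c hT, tauFun_o hd S c hS, tauFun_o hd]
      simp [Finset.mem_symmDiff, hS, hT]
    · rw [tauFun_o hd T c hT, tauFun_u_not hd S c hS, tauFun_o hd]
      simp [Finset.mem_symmDiff, hS, hT]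
    · rw [tauFun_o_not hd T c hT, tauFun_o_not hd S c hS, tauFun_o_not hd]
      simp [Finset.mem_symmDiff, hS, hT]
  · by_cases hS : c ∈ S <;> by_cases hT : c ∈ T
    · rw [tauFun_u hd T c hT, tauFun_o hd S c hS, tauFun_u_not hd]
      simp [Finset.mem_symmDiff, hS, hT]
    · rw [tauFun_u_not hd T c hT, tauFun_u hd S c hS, tauFun_u hd]
      simp [Finset.mem_symmDiff, hS, hT]
    · rw [tauFun_u hd T c hT, tauFun_o_not hd S c hS, tauFun_u hd]
      simp [Finset.mem_symmDiff, hS, hT]
    · rw [tauFun_u_not hd T c hT, tauFun_u_not hd S c hS, tauFun_u_not hd]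
      simp [Finset.mem_symmDiff, hS, hT]
  · rw [tauFun_other T v h1 h2, tauFun_other S v h1 h2, tauFun_other _ v h1 h2]

theorem tauFun_empty {o u : C → V} (v : V) : tauFun o u ∅ v = v := by
  classical
  unfold tauFun
  rw [dif_neg (by simp), dif_neg (by simp)]

theorem tauFun_invol {o u : C → V} (hd : Distinct o u) (T : Finset C) :
    Function.Involutive (tauFun o u T) := by
  classical
  intro v
  rw [tauFun_comp hd, symmDiff_self, Finset.bot_eq_empty, tauFun_empty]

open Classical in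
/-- the reconnection permutation -/
noncomputable def tau (o u : C → V) (T : Finset C) : Equiv.Perm V :=
  if hd : Distinct o u then (tauFun_invol hd T).toPerm else 1

theorem tau_apply {o u : C → V} (hd : Distinct o u) (T : Finset C) (v : V) :
    tau o u T v = tauFun o u T v := by
  unfold tau
  rw [dif_pos hd]; rfl

theorem tau_empty {o u : C → V} (hd : Distinct o u) : tau o u ∅ = 1 := by
  ext v; rw [tau_apply hd, tauFun_empty]; rfl

theorem tau_mul {o u : C → V} [DecidableEq C] (hd : Distinct o u) (S T : Finset C) :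
    tau o u S * tau o u T = tau o u (symmDiff S T) := by
  ext v
  rw [Equiv.Perm.mul_apply, tau_apply hd, tau_apply hd, tau_apply hd, tauFun_comp hd]

theorem tau_insert {o u : C → V} [DecidableEq C] [DecidableEq V] (hd : Distinct o u)
    (T : Finset C) (c : C) (hc : c ∉ T) :
    tau o u (insert c T) = tau o u T * Equiv.swap (o c) (u c) := by
  ext v
  rw [Equiv.Perm.mul_apply, tau_apply hd, tau_apply hd]
  rcases tau_cases (o := o) (u := u) v with ⟨d, rfl⟩ | ⟨d, rfl⟩ | ⟨h1, h2⟩
  · by_cases hdc : d = c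
    · subst hdc
      rw [Equiv.swap_apply_left, tauFun_o hd _ _ (Finset.mem_insert_self _ _), tauFun_u_not hd T d hc]
    · rw [Equiv.swap_apply_of_ne_of_ne (fun h => hdc (hd.oo _ _ h)) (hd.ou _ _)]
      by_cases hT : d ∈ T
      · rw [tauFun_o hd _ _ (Finset.mem_insert_of_mem hT), tauFun_o hd T d hT]
      · rw [tauFun_o_not hd _ _ (by simp [hdc, hT]), tauFun_o_not hd T d hT]
  · by_cases hdc : d = c
    · subst hdc
      rw [Equiv.swap_apply_right, tauFun_u hd _ _ (Finset.mem_insert_self _ _), tauFun_o_not hd T d hc]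
    · rw [Equiv.swap_apply_of_ne_of_ne (fun h => (hd.ou _ _ h.symm)) (fun h => hdc (hd.uu _ _ h))]
      by_cases hT : d ∈ T
      · rw [tauFun_u hd _ _ (Finset.mem_insert_of_mem hT), tauFun_u hd T d hT]
      · rw [tauFun_u_not hd _ _ (by simp [hdc, hT]), tauFun_u_not hd T d hT]
  · rw [Equiv.swap_apply_of_ne_of_ne (h1 c).symm (h2 c).symm, tauFun_other _ v h1 h2,
      tauFun_other _ v h1 h2]

end tau

end Pool.Agent.V11208.UB
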