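import Pool.Agent.V11208.UB.Gauss

/-! Resolution of a skein recursion into a state sum. -/

namespace Pool.Agent.V11208.UB
open Finset BigOperators

section sync
variable {V : Type*}

/-- when travelling from `b`, the point `v` is met, and before `w` -/
def Before (ρ : Equiv.Perm V) (b v w : V) : Prop :=
  Reach ρ b v ∧ (¬ Reach ρ b w ∨ tm ρ b v < tm ρ b w)

theorem Before.asymm {ρ : Equiv.Perm V} {b v w : V} (h : Before ρ b v w) : ¬ Before ρ b w v := by
  rintro ⟨h1, h2⟩
  rcases h.2 with h3 | h3
  · exact h3 h1
  · rcases h2 with h4 | h4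
    · exact h4 h.1
    · omega

theorem sync1 {ρ ρ' : Equiv.Perm V} {b : V} {m : ℕ}
    (h : ∀ v, Reach ρ' b v → tm ρ' b v < m → ρ' v = ρ v) :
    ∀ v, Reach ρ' b v → tm ρ' b v ≤ m → Reach ρ b v ∧ tm ρ b v = tm ρ' b v := by
  intro v hv
  refine orbit_induction (ρ := ρ') (b := b)
    (P := fun v => tm ρ' b v ≤ m → Reach ρ b v ∧ tm ρ b v = tm ρ' b v) ?_ ?_ v hv
  · intro _
    exact ⟨reach_base ρ b, by rw [tm_base, tm_base]⟩
  · intro v hv ih hb hm
    rw [tm_step hv hb] at hm ⊢
    obtain ⟨h1, h2⟩ := ih (by omega)
    have h3 := h v hv (by omega)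
    rw [h3] at hb ⊢
    exact ⟨h1.step, by rw [tm_step h1 hb, h2]⟩

theorem sync2 {ρ ρ' : Equiv.Perm V} {b : V} {m : ℕ}
    (h : ∀ v, Reach ρ' b v → tm ρ' b v < m → ρ' v = ρ v) :
    ∀ v, Reach ρ b v → tm ρ b v ≤ m → Reach ρ' b v ∧ tm ρ' b v = tm ρ b v := by
  intro v hv
  refine orbit_induction (ρ := ρ) (b := b)
    (P := fun v => tm ρ b v ≤ m → Reach ρ' b v ∧ tm ρ' b v = tm ρ b v) ?_ ?_ v hv
  · intro _
    exact ⟨reach_base ρ' b, by rw [tm_base, tm_base]⟩
  · intro v hv ih hb hm
    rw [tm_step hv hb] at hm ⊢
    obtain ⟨h1, h2⟩ := ih (by omega)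
    have h3 := h v h1 (by omega)
    rw [← h3] at hb ⊢
    exact ⟨h1.step, by rw [tm_step h1 hb, h2]⟩

end sync

variable {V : Type*} {C : Type*} [Fintype C] [DecidableEq C]

/-- the choice of the crossings `ω` is descending along the cycle of `b` -/
def Good (σ : Equiv.Perm V) (o u x y : C → V) (b : V) (S : Finset C) (ω : C → Bool) : Prop :=
  ∀ i, i ∉ S → (Before (σ * tau o u S) b (x i) (y i) → ω i = true) ∧
    (Before (σ * tau o u S) b (y i) (x i) → ω i = false)

theorem exists_good (σ : Equiv.Perm V) (o u x y : C → V) (b : V) (S : Finset C) :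
    ∃ ω, Good σ o u x y b S ω := by
  classical
  refine ⟨fun i => decide (Before (σ * tau o u S) b (x i) (y i)), ?_⟩
  intro i _
  constructor
  · intro h; simpa using h
  · intro h; simpa using h.asymm

open Classical in
noncomputable def wgt (σ : Equiv.Perm V) (o u x y : C → V) (b : V) (R : Finset C) (v : Bool)
    (c : C) : Polynomial ℤ :=
  (if v = true then 1 else 0) - (if Before (σ * tau o u R) b (x c) (y c) then 1 else 0)

open Classical in
noncomputable def GG (σ : Equiv.Perm V) (o u x y : C → V) (b : V) (e : C → ℤ) (S : Finset C)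
    (ω : C → Bool) : Polynomial ℤ :=
  ∑ T ∈ (univ \ S).powerset, if OneCycle (σ * tau o u (S ∪ T)) b then
    ∏ c ∈ T, (Polynomial.C (e c) * Polynomial.X * wgt σ o u x y b (S ∪ T) (ω c) c) else 0

theorem tau_off {o u : C → V} (hd : Distinct o u) (S T : Finset C) (v : V)
    (hv : ∀ c ∈ T, v ≠ o c ∧ v ≠ u c) : tau o u (S ∪ T) v = tau o u S v := by
  rw [tau_apply hd, tau_apply hd]
  rcases tau_cases (o := o) (u := u) v with ⟨c, rfl⟩ | ⟨c, rfl⟩ | ⟨h1, h2⟩
  · have hT : c ∉ T := fun h => (hv c h).1 rfl
    by_cases hS : c ∈ S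
    · rw [tauFun_o hd _ _ (Finset.mem_union_left _ hS), tauFun_o hd _ _ hS]
    · rw [tauFun_o_not hd _ _ (by simp [hS, hT]), tauFun_o_not hd _ _ hS]
  · have hT : c ∉ T := fun h => (hv c h).2 rfl
    by_cases hS : c ∈ S
    · rw [tauFun_u hd _ _ (Finset.mem_union_left _ hS), tauFun_u hd _ _ hS]
    · rw [tauFun_u_not hd _ _ (by simp [hS, hT]), tauFun_u_not hd _ _ hS]
  · rw [tauFun_other _ v h1 h2, tauFun_other _ v h1 h2]

/-- the first visited crossing of `T` -/
theorem first_crossing (σ : Equiv.Perm V) {o u : C → V} (hd : Distinct o u) (b : V)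
    (S T : Finset C) (hT : T.Nonempty) (hone : OneCycle (σ * tau o u (S ∪ T)) b) :
    ∃ c ∈ T, (Before (σ * tau o u S) b (o c) (u c) ∧
        Before (σ * tau o u (S ∪ T)) b (o c) (u c)) ∨
      (Before (σ * tau o u S) b (u c) (o c) ∧ Before (σ * tau o u (S ∪ T)) b (u c) (o c)) := by
  set ρ := σ * tau o u S with hρ
  set ρ' := σ * tau o u (S ∪ T) with hρ'
  obtain ⟨c, hc, hmin⟩ := Finset.exists_min_image T
    (fun c => min (tm ρ' b (o c)) (tm ρ' b (u c))) hT
  set m := min (tm ρ' b (o c)) (tm ρ' b (u c)) with hm
  have hmin' : ∀ d ∈ T, m ≤ tm ρ' b (o d) ∧ m ≤ tm ρ' b (u d) := by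
    intro d hd'
    have := hmin d hd'
    constructor
    · exact this.trans (min_le_left _ _)
    · exact this.trans (min_le_right _ _)
  have hag : ∀ v, Reach ρ' b v → tm ρ' b v < m → ρ' v = ρ v := by
    intro v _ hv
    rw [hρ, hρ', Equiv.Perm.mul_apply, Equiv.Perm.mul_apply, tau_off hd]
    intro d hd'
    constructor
    · rintro rfl
      have := (hmin' d hd').1; omega
    · rintro rfl
      have := (hmin' d hd').2; omega
  have key : ∀ z z', (z = o c ∨ z = u c) → (z' = o c ∨ z' = u c) → z ≠ z' → tm ρ' b z = m →
      Before ρ b z z' ∧ Before ρ' b z z' := by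
    intro z z' hz hz' hne htz
    have hz'm : m < tm ρ' b z' := by
      have h1 : m ≤ tm ρ' b z' := by
        rcases hz' with rfl | rfl
        · exact (hmin' c hc).1
        · exact (hmin' c hc).2
      rcases h1.lt_or_eq with h2 | h2
      · exact h2
      · exact absurd (tm_inj (hone z) (hone z') (htz.trans h2)) hne
    obtain ⟨r1, r2⟩ := sync1 hag z (hone z) htz.le
    refine ⟨⟨r1, ?_⟩, hone z, Or.inr (by omega)⟩
    by_contra hcon
    push Not at hcon
    have h3 := sync2 hag z' hcon.1 (by omega)
    omega
  refine ⟨c, hc, ?_⟩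
  rcases min_choice (tm ρ' b (o c)) (tm ρ' b (u c)) with h | h
  · left
    exact key (o c) (u c) (Or.inl rfl) (Or.inr rfl) (hd.ou _ _) (by rw [hm, h])
  · right
    exact key (u c) (o c) (Or.inr rfl) (Or.inl rfl) (hd.ou _ _).symm (by rw [hm, h])

theorem GG_good (σ : Equiv.Perm V) {o u x y : C → V} (hd : Distinct o u)
    (hxy : ∀ c, (x c = o c ∧ y c = u c) ∨ (x c = u c ∧ y c = o c)) (b : V) (e : C → ℤ)
    (S : Finset C) (ω : C → Bool) (hg : Good σ o u x y b S ω) [Decidable (OneCycle (σ * tau o u S) b)] :
    GG σ o u x y b e S ω = if OneCycle (σ * tau o u S) b then 1 else 0 := by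
  classical
  unfold GG
  rw [Finset.sum_eq_single ∅]
  · rw [Finset.union_empty]; simp
  · intro T hT hne
    split_ifs with hone
    · rw [Finset.mem_powerset] at hT
      obtain ⟨c, hc, hcc⟩ := first_crossing σ hd b S T (Finset.nonempty_iff_ne_empty.2 hne) hone
      apply Finset.prod_eq_zero hc
      have hcS : c ∉ S := by
        have := hT hc
        simpa using this
      have hw : wgt σ o u x y b (S ∪ T) (ω c) c = 0 := by
        have key : (Before (σ * tau o u S) b (x c) (y c) ∧
            Before (σ * tau o u (S ∪ T)) b (x c) (y c)) ∨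
            (Before (σ * tau o u S) b (y c) (x c) ∧
            Before (σ * tau o u (S ∪ T)) b (y c) (x c)) := by
          rcases hxy c with ⟨h1, h2⟩ | ⟨h1, h2⟩
          · rw [h1, h2]; exact hcc
          · rw [h1, h2]; exact hcc.symm
        rcases key with ⟨h1, h2⟩ | ⟨h1, h2⟩
        · have := (hg c hcS).1 h1
          unfold wgt
          rw [if_pos this, if_pos h2, sub_self]
        · have := (hg c hcS).2 h1
          unfold wgt
          rw [if_neg (by rw [this]; simp), if_neg h2.asymm, sub_self]
      rw [hw, mul_zero]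
    · rfl
  · intro h
    exact absurd (Finset.empty_mem_powerset _) h

theorem GG_inv (σ : Equiv.Perm V) {o u x y : C → V} (b : V) (e : C → ℤ)
    (S : Finset C) (c : C) (ω : C → Bool) (v : Bool) (hc : c ∈ S) :
    GG σ o u x y b e S (Function.update ω c v) = GG σ o u x y b e S ω := by
  classical
  unfold GG
  apply Finset.sum_congr rfl
  intro T hT
  rw [Finset.mem_powerset] at hT
  split_ifs
  · apply Finset.prod_congr rfl
    intro d hd
    have hdc : d ≠ c := by
      rintro rfl
      have := hT hd
      simp [hc] at this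
    rw [Function.update_of_ne hdc]
  · rfl

theorem GG_skein (σ : Equiv.Perm V) {o u x y : C → V} (b : V) (e : C → ℤ)
    (S : Finset C) (c : C) (ω : C → Bool) (hc : c ∉ S) :
    GG σ o u x y b e S (Function.update ω c true) - GG σ o u x y b e S (Function.update ω c false)
      = Polynomial.C (e c) * Polynomial.X * GG σ o u x y b e (insert c S) ω := by
  classical
  unfold GG
  have hu : univ \ S = insert c (univ \ insert c S) := by
    ext d
    by_cases hd : d = c
    · subst hd; simp [hc]
    · simp [hd]
  have hcn : c ∉ univ \ insert c S := by simp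
  rw [hu, Finset.sum_powerset_insert hcn, Finset.sum_powerset_insert hcn, Finset.mul_sum]
  rw [add_sub_add_comm, ← Finset.sum_sub_distrib, ← Finset.sum_sub_distrib]
  have h1 : ∀ T ∈ (univ \ insert c S).powerset, ((if OneCycle (σ * tau o u (S ∪ T)) b then
      ∏ d ∈ T, (Polynomial.C (e d) * Polynomial.X *
        wgt σ o u x y b (S ∪ T) (Function.update ω c true d) d) else 0) -
      (if OneCycle (σ * tau o u (S ∪ T)) b then
      ∏ d ∈ T, (Polynomial.C (e d) * Polynomial.X *
        wgt σ o u x y b (S ∪ T) (Function.update ω c false d) d) else 0) : Polynomial ℤ) = 0 := by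
    intro T hT
    rw [Finset.mem_powerset] at hT
    have hcT : c ∉ T := fun h => hcn (hT h)
    rw [sub_eq_zero]
    split_ifs
    · apply Finset.prod_congr rfl
      intro d hd
      have hdc : d ≠ c := by rintro rfl; exact hcT hd
      rw [Function.update_of_ne hdc, Function.update_of_ne hdc]
    · rfl
  rw [Finset.sum_congr rfl h1, Finset.sum_const_zero, zero_add]
  apply Finset.sum_congr rfl
  intro T hT
  rw [Finset.mem_powerset] at hT
  have hcT : c ∉ T := fun h => hcn (hT h)
  have hST : S ∪ insert c T = insert c S ∪ T := by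
    ext d; simp
  rw [hST]
  split_ifs
  · rw [Finset.prod_insert hcT, Finset.prod_insert hcT]
    have hp : ∀ v : Bool, ∏ d ∈ T, (Polynomial.C (e d) * Polynomial.X *
        wgt σ o u x y b (insert c S ∪ T) (Function.update ω c v d) d) =
        ∏ d ∈ T, (Polynomial.C (e d) * Polynomial.X *
        wgt σ o u x y b (insert c S ∪ T) (ω d) d) := by
      intro v
      apply Finset.prod_congr rfl
      intro d hd
      have hdc : d ≠ c := by rintro rfl; exact hcT hd
      rw [Function.update_of_ne hdc]
    rw [hp, hp, Function.update_self, Function.update_self, ← sub_mul, ← mul_sub]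
    have hw : wgt σ o u x y b (insert c S ∪ T) true c -
        wgt σ o u x y b (insert c S ∪ T) false c = 1 := by
      unfold wgt; simp
    rw [hw, mul_one]
  · simp

/-- a skein recursion with descending boundary values is a state sum -/
theorem resolution (σ : Equiv.Perm V) {o u x y : C → V} (hd : Distinct o u)
    (hxy : ∀ c, (x c = o c ∧ y c = u c) ∨ (x c = u c ∧ y c = o c)) (b : V) (e : C → ℤ)
    (F : Finset C → (C → Bool) → Polynomial ℤ)
    (hskein : ∀ S c ω, c ∉ S → F S (Function.update ω c true) - F S (Function.update ω c false) =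
      Polynomial.C (e c) * Polynomial.X * F (insert c S) ω)
    (hinv : ∀ S c ω v, c ∈ S → F S (Function.update ω c v) = F S ω)
    (hgood1 : ∀ S ω, Good σ o u x y b S ω → OneCycle (σ * tau o u S) b → F S ω = 1)
    (hgood0 : ∀ S ω, Good σ o u x y b S ω → ¬ OneCycle (σ * tau o u S) b → F S ω = 0) :
    ∀ S ω, F S ω = GG σ o u x y b e S ω := by
  classical
  have key : ∀ n : ℕ, ∀ S : Finset C, (univ \ S).card ≤ n → ∀ ω, F S ω = GG σ o u x y b e S ω := by
    intro n
    induction n with
    | zero =>
      intro S hS ω
      have hall : ∀ c, c ∈ S := by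
        intro c
        by_contra hc
        have : 0 < (univ \ S).card := Finset.card_pos.2 ⟨c, by simp [hc]⟩
        omega
      have hg : Good σ o u x y b S ω := fun i hi => absurd (hall i) hi
      rw [GG_good σ hd hxy b e S ω hg]
      split_ifs with h
      · exact hgood1 S ω hg h
      · exact hgood0 S ω hg h
    | succ n ih =>
      intro S hS ω
      set D : (C → Bool) → Polynomial ℤ := fun ω => F S ω - GG σ o u x y b e S ω with hD
      have hflip : ∀ c ω v, D (Function.update ω c v) = D ω := by
        intro c ω v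
        by_cases hc : c ∈ S
        · simp only [hD]
          rw [hinv S c ω v hc, GG_inv σ b e S c ω v hc]
        · have hcard : (univ \ insert c S).card ≤ n := by
            have h1 : univ \ S = insert c (univ \ insert c S) := by
              ext d
              by_cases hd : d = c
              · subst hd; simp [hc]
              · simp [hd]
            rw [h1, Finset.card_insert_of_notMem (by simp)] at hS
            omega
          have htf : D (Function.update ω c true) = D (Function.update ω c false) := by
            simp only [hD]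
            have h1 := hskein S c ω hc
            have h2 := GG_skein σ (o := o) (u := u) (x := x) (y := y) b e S c ω hc
            rw [ih _ hcard ω] at h1
            linear_combination h1 - h2
          have hω : ω = Function.update ω c (ω c) := by simp
          conv_rhs => rw [hω]
          rcases Bool.eq_false_or_eq_true (ω c) with h1 | h1 <;>
            rcases Bool.eq_false_or_eq_true v with h2 | h2 <;> rw [h1, h2]
          · exact htf.symm
          · exact htf
      obtain ⟨ω₀, hg⟩ := exists_good σ o u x y b S
      have hD0 : D ω₀ = 0 := by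
        simp only [hD]
        rw [GG_good σ hd hxy b e S ω₀ hg]
        split_ifs with h
        · rw [hgood1 S ω₀ hg h, sub_self]
        · rw [hgood0 S ω₀ hg h, sub_self]
      have hA : ∀ A : Finset C, D (fun c => if c ∈ A then ω₀ c else ω c) = D ω := by
        intro A
        induction A using Finset.induction_on with
        | empty => simp
        | insert a A ha ihA =>
          rw [← ihA, ← hflip a (fun c => if c ∈ A then ω₀ c else ω c) (ω₀ a)]
          congr 1
          funext c
          by_cases hca : c = a
          · subst hca; simp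
          · rw [Function.update_of_ne hca]; simp [hca]
      have h1 := hA univ
      simp only [Finset.mem_univ, if_true] at h1
      have h2 : D ω = 0 := by rw [← h1]; exact hD0
      exact sub_eq_zero.1 h2
  intro S ω
  exact key _ S le_rfl ω

/-- the bound of the coefficients by the number of states -/
theorem coeff_bound (σ : Equiv.Perm V) {o u x y : C → V} (hd : Distinct o u)
    (hxy : ∀ c, (x c = o c ∧ y c = u c) ∨ (x c = u c ∧ y c = o c)) (b : V) (e : C → ℤ)
    (he : ∀ c, |e c| = 1) (k : ℕ) (A : Finset (Finset C))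
    (hA : ∀ T : Finset C, T.card = k → OneCycle (σ * tau o u T) b →
      (∀ c ∈ T, tm (σ * tau o u T) b (y c) < tm (σ * tau o u T) b (x c)) → T ∈ A) :
    |(GG σ o u x y b e ∅ (fun _ => true)).coeff k| ≤ A.card := by
  classical
  unfold GG
  rw [Finset.sdiff_empty, Finset.powerset_univ, Polynomial.finsetSum_coeff]
  have hterm : ∀ T : Finset C, |(if OneCycle (σ * tau o u (∅ ∪ T)) b then
    ∏ c ∈ T, (Polynomial.C (e c) * Polynomial.X * wgt σ o u x y b (∅ ∪ T) true c)
      else 0 : Polynomial ℤ).coeff k| ≤ if T ∈ A then 1 else 0 := by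
    intro T
    rw [Finset.empty_union]
    by_cases hone : OneCycle (σ * tau o u T) b
    · rw [if_pos hone]
      by_cases hst : ∀ c ∈ T, tm (σ * tau o u T) b (y c) < tm (σ * tau o u T) b (x c)
      · have hw : ∀ c ∈ T, Polynomial.C (e c) * Polynomial.X * wgt σ o u x y b T true c =
            Polynomial.C (e c) * Polynomial.X := by
          intro c hc
          have h1 : ¬ Before (σ * tau o u T) b (x c) (y c) := by
            rintro ⟨_, h2⟩
            rcases h2 with h2 | h2
            · exact h2 (hone _)
            · have := hst c hc; omega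
          unfold wgt
          rw [if_neg h1]; simp
        rw [Finset.prod_congr rfl hw, Finset.prod_mul_distrib, Finset.prod_const,
          ← map_prod, Polynomial.coeff_C_mul, Polynomial.coeff_X_pow]
        by_cases hk : k = T.card
        · rw [if_pos hk, mul_one, Finset.abs_prod, Finset.prod_congr rfl (fun c _ => he c),
            Finset.prod_const_one, if_pos (hA T hk.symm hone hst)]
        · rw [if_neg hk, mul_zero, abs_zero]
          split_ifs <;> norm_num
      · have hz : ∏ c ∈ T, (Polynomial.C (e c) * Polynomial.X * wgt σ o u x y b T true c) = 0 := by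
          push Not at hst
          obtain ⟨c, hc, hle⟩ := hst
          apply Finset.prod_eq_zero hc
          have hne : x c ≠ y c := by
            rcases hxy c with ⟨h1, h2⟩ | ⟨h1, h2⟩
            · rw [h1, h2]; exact hd.ou _ _
            · rw [h1, h2]; exact (hd.ou _ _).symm
          have hlt : tm (σ * tau o u T) b (x c) < tm (σ * tau o u T) b (y c) := by
            rcases hle.lt_or_eq with h | h
            · exact h
            · exact absurd (tm_inj (hone _) (hone _) h) hne
          have hbef : Before (σ * tau o u T) b (x c) (y c) := ⟨hone _, Or.inr hlt⟩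
          unfold wgt
          rw [if_pos hbef]
          simp
        rw [hz]; simp; split_ifs <;> norm_num
    · rw [if_neg hone]; simp; split_ifs <;> norm_num
  calc |∑ T : Finset C, (if OneCycle (σ * tau o u (∅ ∪ T)) b then
    ∏ c ∈ T, (Polynomial.C (e c) * Polynomial.X * wgt σ o u x y b (∅ ∪ T) true c)
      else 0 : Polynomial ℤ).coeff k| ≤ ∑ T : Finset C, |(if OneCycle (σ * tau o u (∅ ∪ T)) b then
    ∏ c ∈ T, (Polynomial.C (e c) * Polynomial.X * wgt σ o u x y b (∅ ∪ T) true c)
      else 0 : Polynomial ℤ).coeff k| := Finset.abs_sum_le_sum_abs _ _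
    _ ≤ ∑ T : Finset C, (if T ∈ A then 1 else 0 : ℤ) := Finset.sum_le_sum (fun T _ => hterm T)
    _ = A.card := by simp

end Pool.Agent.V11208.UB
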