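import Mathlib

/-! The counting argument: an exact cover of the nonempty subsets by intervals bounds the number of
intervals starting in level `k`. -/

namespace Pool.Agent.V11208.UB
open Finset

/-- the weights -/
def wt (N k : ℕ) (r : ℕ) : ℤ := if r ≤ k then Ring.choose (-(N:ℤ)) (k - r) else 0

theorem sum_wt (N k s p : ℕ) (hs : s ≤ k) :
    ∑ j ∈ range (p+1), (p.choose j : ℤ) * wt N k (s + j) = Ring.choose ((p:ℤ) - N) (k - s) := by
  have h1 : Ring.choose ((p:ℤ) - N) (k - s) =
      ∑ j ∈ range (k - s + 1), (p.choose j : ℤ) * wt N k (s + j) := by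
    rw [sub_eq_add_neg, Ring.add_choose_eq _ (Commute.all _ _),
      Finset.Nat.sum_antidiagonal_eq_sum_range_succ
        (fun i j => Ring.choose (p:ℤ) i * Ring.choose (-(N:ℤ)) j)]
    apply Finset.sum_congr rfl
    intro j hj
    rw [Finset.mem_range] at hj
    rw [Ring.choose_natCast, wt, if_pos (by omega), Nat.sub_add_eq]
  rw [h1]
  have h2 : ∑ j ∈ range (p+1), (p.choose j : ℤ) * wt N k (s + j) =
      ∑ j ∈ range (p+1 + (k-s+1)), (p.choose j : ℤ) * wt N k (s + j) := by
    apply Finset.sum_subset
    · intro x hx; rw [Finset.mem_range] at *; omega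
    · intro x _ hx
      rw [Finset.mem_range] at hx
      rw [Nat.choose_eq_zero_of_lt (by omega)]; simp
  have h3 : ∑ j ∈ range (k - s + 1), (p.choose j : ℤ) * wt N k (s + j) =
      ∑ j ∈ range (p+1 + (k-s+1)), (p.choose j : ℤ) * wt N k (s + j) := by
    apply Finset.sum_subset
    · intro x hx; rw [Finset.mem_range] at *; omega
    · intro x _ hx
      rw [Finset.mem_range] at hx
      rw [wt, if_neg (by omega), mul_zero]
  rw [h2, h3]

theorem sum_wt_gt (N k s p : ℕ) (hs : k < s) :
    ∑ j ∈ range (p+1), (p.choose j : ℤ) * wt N k (s + j) = 0 := by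
  apply Finset.sum_eq_zero
  intro j _
  rw [wt, if_neg (by omega), mul_zero]

theorem choose_nonneg_of_even (m : ℤ) (j : ℕ) (hj : Even j) : 0 ≤ Ring.choose m j := by
  rcases m with a | a
  · change 0 ≤ Ring.choose ((a : ℕ) : ℤ) j
    rw [Ring.choose_natCast]; positivity
  · have h : Int.negSucc a = -(((a + 1 : ℕ)) : ℤ) := rfl
    rw [h, Ring.choose_neg, Int.negOnePow_even _ (by exact_mod_cast hj), one_smul]
    have h2 : (((a + 1 : ℕ)) : ℤ) + (j : ℤ) - 1 = ((a + j : ℕ) : ℤ) := by push_cast; ring
    rw [h2, Ring.choose_natCast]; positivity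

theorem wt_zero (N k : ℕ) (hN : 1 ≤ N) :
    wt N k 0 = (-1)^k * ((N + k - 1).choose k : ℤ) := by
  rw [wt, if_pos (Nat.zero_le _), Nat.sub_zero, Ring.choose_neg]
  have h2 : ((N : ℕ) : ℤ) + (k : ℤ) - 1 = ((N + k - 1 : ℕ) : ℤ) := by
    rw [Nat.cast_sub (by omega)]; push_cast; ring
  rw [h2, Ring.choose_natCast]
  rcases Nat.even_or_odd k with h | h
  · rw [Int.negOnePow_even _ (by exact_mod_cast h), h.neg_one_pow]; simp
  · rw [Int.negOnePow_odd _ (by exact_mod_cast h), h.neg_one_pow]; simp

variable {C : Type*} [Fintype C] [DecidableEq C]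

open Classical in
theorem count_le (k : ℕ) (hk : k ≤ Fintype.card C) (hpar : Odd (Fintype.card C - k))
    (pos : Finset C → Bool → C → Prop)
    (hcov : ∀ X : Finset C, X.Nonempty → ∃! q : Finset C × Bool,
      Even (q.1.card + k) ∧ q.1 ⊆ X ∧ ∀ v ∈ X, pos q.1 q.2 v) :
    (univ.filter (fun q : Finset C × Bool => q.1.card = k ∧ ∀ v ∈ q.1, pos q.1 q.2 v)).card ≤
      2 * ((Fintype.card C + k - 1) / 2).choose k := by
  set n := Fintype.card C with hn
  obtain ⟨m, hm⟩ := hpar
  set N := m + 1 with hN
  have hnk : n = k + 2 * m + 1 := by omega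
  set St : Finset (Finset C × Bool) :=
    univ.filter (fun q => Even (q.1.card + k) ∧ ∀ v ∈ q.1, pos q.1 q.2 v) with hSt
  set P : Finset C × Bool → Finset C := fun q => univ.filter (fun v => v ∉ q.1 ∧ pos q.1 q.2 v)
    with hP
  set R : Finset C → Finset (Finset C × Bool) := fun X =>
    univ.filter (fun q => Even (q.1.card + k) ∧ q.1 ⊆ X ∧ ∀ v ∈ X, pos q.1 q.2 v) with hR
  -- double counting
  have hdc : ∑ X : Finset C, ∑ q ∈ R X, wt N k X.card =
      ∑ q ∈ St, ∑ j ∈ range ((P q).card + 1), ((P q).card.choose j : ℤ) * wt N k (q.1.card + j) := by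
    have h1 : ∀ q ∈ St, ∑ j ∈ range ((P q).card + 1),
        ((P q).card.choose j : ℤ) * wt N k (q.1.card + j) =
        ∑ X ∈ univ.filter (fun X : Finset C => q.1 ⊆ X ∧ ∀ v ∈ X, pos q.1 q.2 v), wt N k X.card := by
      intro q hq
      rw [hSt, Finset.mem_filter] at hq
      have h2 := Finset.sum_powerset_apply_card (fun j => wt N k (q.1.card + j)) (x := P q)
      simp only [nsmul_eq_mul] at h2
      rw [← h2]
      apply Finset.sum_bij' (i := fun Q _ => q.1 ∪ Q) (j := fun X _ => X \ q.1)
      · intro Q hQ
        rw [Finset.mem_powerset] at hQ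
        rw [Finset.mem_filter]
        refine ⟨Finset.mem_univ _, Finset.subset_union_left, ?_⟩
        intro v hv
        rcases Finset.mem_union.1 hv with h | h
        · exact hq.2.2 v h
        · exact (Finset.mem_filter.1 (hQ h)).2.2
      · intro X hX
        rw [Finset.mem_filter] at hX
        rw [Finset.mem_powerset]
        intro v hv
        rw [Finset.mem_sdiff] at hv
        rw [hP, Finset.mem_filter]
        exact ⟨Finset.mem_univ _, hv.2, hX.2.2 v hv.1⟩
      · intro Q hQ
        rw [Finset.mem_powerset] at hQ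
        ext v
        simp only [Finset.mem_sdiff, Finset.mem_union]
        constructor
        · rintro ⟨h | h, h'⟩
          · exact absurd h h'
          · exact h
        · intro h
          exact ⟨Or.inr h, (Finset.mem_filter.1 (hQ h)).2.1⟩
      · intro X hX
        rw [Finset.mem_filter] at hX
        exact Finset.union_sdiff_of_subset hX.2.1
      · intro Q hQ
        rw [Finset.mem_powerset] at hQ
        rw [Finset.card_union_of_disjoint]
        rw [Finset.disjoint_right]
        intro v hv
        exact (Finset.mem_filter.1 (hQ hv)).2.1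
    rw [Finset.sum_congr rfl h1]
    simp only [hR]
    simp only [Finset.sum_filter]
    rw [Finset.sum_comm]
    rw [hSt, Finset.sum_filter]
    apply Finset.sum_congr rfl
    intro q _
    by_cases he : Even (q.1.card + k) ∧ ∀ v ∈ q.1, pos q.1 q.2 v
    · rw [if_pos he]
      apply Finset.sum_congr rfl
      intro X _
      by_cases h : q.1 ⊆ X ∧ ∀ v ∈ X, pos q.1 q.2 v
      · rw [if_pos ⟨he.1, h⟩, if_pos h]
      · rw [if_neg (fun h' => h h'.2), if_neg h]
    · rw [if_neg he]
      apply Finset.sum_eq_zero
      intro X _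
      rw [if_neg]
      rintro ⟨h1, h2, h3⟩
      exact he ⟨h1, fun v hv => h3 v (h2 hv)⟩
  -- left side
  have hcard : ∀ X : Finset C, X.Nonempty → (R X).card = 1 := by
    intro X hX
    obtain ⟨q, hq, huniq⟩ := hcov X hX
    rw [Finset.card_eq_one]
    refine ⟨q, ?_⟩
    ext q'
    simp only [hR, Finset.mem_filter, Finset.mem_univ, true_and, Finset.mem_singleton]
    constructor
    · exact huniq q'
    · rintro rfl; exact hq
  have hempty : (R ∅).card = if Even k then 2 else 0 := by
    have : R ∅ = if Even k then {(∅, true), (∅, false)} else ∅ := by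
      ext ⟨S, e⟩
      simp only [hR, Finset.mem_filter, Finset.mem_univ, true_and, Finset.subset_empty]
      constructor
      · rintro ⟨h1, rfl, _⟩
        simp only [Finset.card_empty, zero_add] at h1
        rw [if_pos h1]
        cases e <;> simp
      · intro h
        split_ifs at h with he
        · simp only [Finset.mem_insert, Prod.mk.injEq, Finset.mem_singleton] at h
          rcases h with ⟨rfl, _⟩ | ⟨rfl, _⟩ <;> simp [he]
        · simp at h
    rw [this]
    split_ifs
    · rw [Finset.card_insert_of_notMem (by simp), Finset.card_singleton]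
    · rfl
  have hleft : ∑ X : Finset C, ∑ q ∈ R X, wt N k X.card =
      (∑ j ∈ range (n + 1), (n.choose j : ℤ) * wt N k (0 + j)) +
      (if Even k then 1 else -1) * wt N k 0 := by
    have h2 := Finset.sum_powerset_apply_card (fun j => wt N k (0 + j)) (x := (univ : Finset C))
    simp only [nsmul_eq_mul, Finset.powerset_univ, Finset.card_univ] at h2
    rw [← hn] at h2
    rw [← h2]
    have h3 : ∀ X : Finset C, ∑ q ∈ R X, wt N k X.card =
        wt N k (0 + X.card) + (if X = ∅ then (if Even k then 1 else -1) * wt N k 0 else 0) := by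
      intro X
      rw [Finset.sum_const, nsmul_eq_mul]
      by_cases hX : X = ∅
      · subst hX
        rw [hempty, if_pos rfl]
        split_ifs
        · simp; ring
        · simp
      · rw [hcard X (Finset.nonempty_iff_ne_empty.2 hX), if_neg hX]; simp
    rw [Finset.sum_congr rfl (fun X _ => h3 X), Finset.sum_add_distrib]
    congr 1
    rw [Finset.sum_ite_eq']
    simp
  have hval : ∑ X : Finset C, ∑ q ∈ R X, wt N k X.card =
      2 * (((n + k - 1) / 2).choose k : ℤ) := by
    rw [hleft, sum_wt N k 0 n (Nat.zero_le _), wt_zero N k (by omega), Nat.sub_zero]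
    have h1 : (n : ℤ) - N = ((k + m : ℕ) : ℤ) := by
      rw [hnk, hN]; push_cast; ring
    rw [h1, Ring.choose_natCast]
    have h2 : (n + k - 1) / 2 = k + m := by omega
    have h3 : N + k - 1 = k + m := by omega
    rw [h2, h3]
    rcases Nat.even_or_odd k with h | h
    · rw [if_pos h, h.neg_one_pow]; ring
    · rw [if_neg (Nat.not_even_iff_odd.2 h), h.neg_one_pow]; ring
  -- right side
  have hright : ((univ.filter (fun q : Finset C × Bool =>
      q.1.card = k ∧ ∀ v ∈ q.1, pos q.1 q.2 v)).card : ℤ) ≤
      ∑ q ∈ St, ∑ j ∈ range ((P q).card + 1),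
        ((P q).card.choose j : ℤ) * wt N k (q.1.card + j) := by
    have hsub : univ.filter (fun q : Finset C × Bool =>
      q.1.card = k ∧ ∀ v ∈ q.1, pos q.1 q.2 v) ⊆ St := by
      intro q hq
      rw [Finset.mem_filter] at hq
      rw [hSt, Finset.mem_filter]
      refine ⟨Finset.mem_univ _, ?_, hq.2.2⟩
      rw [hq.2.1]; exact ⟨k, rfl⟩
    have hnn : ∀ q ∈ St, 0 ≤ ∑ j ∈ range ((P q).card + 1),
        ((P q).card.choose j : ℤ) * wt N k (q.1.card + j) := by
      intro q hq
      rw [hSt, Finset.mem_filter] at hq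
      rcases le_or_gt q.1.card k with h | h
      · rw [sum_wt N k _ _ h]
        apply choose_nonneg_of_even
        have := hq.2.1
        rw [Nat.even_add] at this
        rw [Nat.even_sub h]
        exact this.symm
      · rw [sum_wt_gt N k _ _ h]
    refine le_trans ?_ (Finset.sum_le_sum_of_subset_of_nonneg hsub (fun q hq _ => hnn q hq))
    rw [Finset.card_eq_sum_ones, Nat.cast_sum]
    apply Finset.sum_le_sum
    intro q hq
    rw [Finset.mem_filter] at hq
    rw [sum_wt N k _ _ hq.2.1.le, hq.2.1, Nat.sub_self, Ring.choose_zero_right]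
    norm_num
  rw [← hdc, hval] at hright
  exact_mod_cast hright

end Pool.Agent.V11208.UB
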