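import Pool.Agent.V11208.UB.LA
import Pool.Agent.V11208.UB.Count

/-! For a generic skew-symmetric matrix the states cover every nonempty set exactly once. -/

namespace Pool.Agent.V11208.UB
open Finset BigOperators

section kernel
variable {I : Type*} [Fintype I] [DecidableEq I]

theorem kernel_exists (M : I → I → ℝ) (hM : Skew M) (hG : Generic M) (Y : Finset I)
    (hY : Even Y.card) (j : I) (hj : j ∉ Y) :
    ∃ z : I → ℝ, z j = 1 ∧ (∀ i, i ≠ j → i ∉ Y → z i = 0) ∧ (∀ i ∈ Y, app M z i = 0) ∧
      app M z j = 0 := by
  classical
  let Φ : (I → ℝ) →ₗ[ℝ] (I → ℝ) :=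
    { toFun := fun z i => if i ∈ Y then ∑ l ∈ Y, M i l * z l else z i
      map_add' := by
        intro z w; funext i
        by_cases h : i ∈ Y
        · simp [h, mul_add, Finset.sum_add_distrib]
        · simp [h]
      map_smul' := by
        intro c z; funext i
        by_cases h : i ∈ Y
        · simp only [h, if_true, Pi.smul_apply, smul_eq_mul, RingHom.id_apply, Finset.mul_sum]
          apply Finset.sum_congr rfl
          intro l _; ring
        · simp [h] }
  have hinj : Function.Injective Φ := by
    rw [injective_iff_map_eq_zero]
    intro z hz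
    have h1 : ∀ i, i ∉ Y → z i = 0 := by
      intro i hi
      have := congrFun hz i
      simpa [Φ, hi] using this
    apply hG Y hY z h1
    intro i hi
    have := congrFun hz i
    simp only [Φ, LinearMap.coe_mk, AddHom.coe_mk, hi, if_true, Pi.zero_apply] at this
    rw [← this, app]
    symm
    apply Finset.sum_subset (Finset.subset_univ Y)
    intro l _ hl
    rw [h1 l hl, mul_zero]
  have hsurj : Function.Surjective Φ := LinearMap.injective_iff_surjective.1 hinj
  obtain ⟨y, hy⟩ := hsurj (fun i => if i ∈ Y then - M i j else 0)
  have hy1 : ∀ i, i ∉ Y → y i = 0 := by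
    intro i hi
    have := congrFun hy i
    simpa [Φ, hi] using this
  have hy2 : ∀ i ∈ Y, ∑ l ∈ Y, M i l * y l = - M i j := by
    intro i hi
    have := congrFun hy i
    simpa [Φ, hi] using this
  let z : I → ℝ := fun i => if i = j then 1 else y i
  have hzj : z j = 1 := by simp [z]
  have hz1 : ∀ i, i ≠ j → i ∉ Y → z i = 0 := by
    intro i hij hi
    simp only [z, if_neg hij]; exact hy1 i hi
  have hz2 : ∀ i ∈ Y, app M z i = 0 := by
    intro i hi
    have h1 : app M z i = ∑ l ∈ insert j Y, M i l * z l := by
      rw [app]; symm
      apply Finset.sum_subset (Finset.subset_univ _)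
      intro l _ hl
      rw [Finset.mem_insert, not_or] at hl
      rw [hz1 l hl.1 hl.2, mul_zero]
    rw [h1, Finset.sum_insert hj, hzj, mul_one]
    have h2 : ∑ l ∈ Y, M i l * z l = ∑ l ∈ Y, M i l * y l := by
      apply Finset.sum_congr rfl
      intro l hl
      have : l ≠ j := by rintro rfl; exact hj hl
      simp [z, this]
    rw [h2, hy2 i hi]; ring
  refine ⟨z, hzj, hz1, hz2, ?_⟩
  have h0 := pairing_self M hM z
  rw [← Finset.sum_subset (Finset.subset_univ (insert j Y)), Finset.sum_insert hj] at h0
  · rw [hzj, one_mul, Finset.sum_eq_zero, add_zero] at h0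
    · exact h0
    · intro i hi
      rw [hz2 i hi, mul_zero]
  · intro i _ hi
    rw [Finset.mem_insert, not_or] at hi
    rw [hz1 i hi.1 hi.2, zero_mul]

end kernel

variable {C : Type*} [Fintype C] [DecidableEq C]

/-- the (doubled) sign condition vector attached to `S` -/
structure Vec (M : Option C → Option C → ℝ) (T : Finset C) (z : Option C → ℝ) : Prop where
  one : z none = 1
  supp : ∀ v, v ∉ T → z (some v) = 0
  ker : ∀ v ∈ T, app M z (some v) = 0
  ker0 : app M z none = 0

theorem vec_exists (M : Option C → Option C → ℝ) (hM : Skew M) (hG : Generic M) (T : Finset C)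
    (hT : Even T.card) : ∃ z, Vec M T z := by
  classical
  obtain ⟨z, h1, h2, h3, h4⟩ := kernel_exists M hM hG (T.map Function.Embedding.some)
    (by rw [Finset.card_map]; exact hT) none (by simp)
  refine ⟨z, h1, ?_, ?_, h4⟩
  · intro v hv
    apply h2 _ (by simp)
    simpa using hv
  · intro v hv
    apply h3
    simpa using hv

theorem vec_unique (M : Option C → Option C → ℝ) (hG : Generic M) (T : Finset C)
    (hT : Even T.card) (z w : Option C → ℝ) (hz : Vec M T z) (hw : Vec M T w) : z = w := by
  classical
  have h : (fun i => z i - w i) = 0 := by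
    apply hG (T.map Function.Embedding.some) (by rw [Finset.card_map]; exact hT)
    · intro i hi
      rcases i with _ | v
      · simp [hz.one, hw.one]
      · have hv : v ∉ T := by
          intro h; apply hi; simpa using h
        simp [hz.supp v hv, hw.supp v hv]
    · intro i hi
      rcases i with _ | v
      · simp at hi
      · have hv : v ∈ T := by simpa using hi
        have : app M (fun i => z i - w i) (some v) = app M z (some v) - app M w (some v) := by
          unfold app
          rw [← Finset.sum_sub_distrib]
          apply Finset.sum_congr rfl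
          intro k _; ring
        rw [this, hz.ker v hv, hw.ker v hv, sub_zero]
  funext i
  have := congrFun h i
  simp at this
  linarith

/-- the coordinates of `z` relative to `T` -/
noncomputable def coordD (M : Option C → Option C → ℝ) (T : Finset C) (z : Option C → ℝ) (v : C) : ℝ :=
  open Classical in if v ∈ T then z (some v) else app M z (some v)

theorem vec_ne (M : Option C → Option C → ℝ) (hG : Generic M) (T : Finset C)
    (z : Option C → ℝ) (hz : Vec M T z) (v : C) : coordD M T z v ≠ 0 := by
  classical
  have hs := ker_struct M hG (insert none (T.map Function.Embedding.some)) z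
    (by intro h; have := congrFun h none; rw [hz.one] at this; simp at this)
    (by
      intro i hi
      rcases i with _ | v
      · simp at hi
      · apply hz.supp
        intro h; apply hi; simp [h])
    (by
      intro i hi
      rcases i with _ | v
      · exact hz.ker0
      · apply hz.ker
        simpa using hi)
  unfold coordD
  split_ifs with h
  · apply hs.2.1; simp [h]
  · apply hs.2.2; simp [h]

theorem card_symmDiff_even (S S0 : Finset C) (k : ℕ) (hk : Even (S0.card + k)) :
    Even (symmDiff S S0).card ↔ Even (S.card + k) := by
  have h : (symmDiff S S0).card + 2 * (S ∩ S0).card = S.card + S0.card := by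
    rw [symmDiff_def, Finset.sup_eq_union, Finset.card_union_of_disjoint disjoint_sdiff_sdiff]
    have h1 := Finset.card_sdiff_add_card_inter S S0
    have h2 := Finset.card_sdiff_add_card_inter S0 S
    rw [Finset.inter_comm S0 S] at h2
    omega
  rw [Nat.even_iff, Nat.even_iff] at *
  omega

open Classical in
/-- positivity relation -/
noncomputable def gpos (M : Option C → Option C → ℝ) (S0 : Finset C) (S : Finset C) (e : Bool)
    (v : C) : Prop :=
  ∃ z, Vec M (symmDiff S S0) z ∧ 0 < (if e then (1:ℝ) else -1) * coordD M (symmDiff S S0) z v

theorem app_smul {I : Type*} [Fintype I] (M : I → I → ℝ) (c : ℝ) (z : I → ℝ) (i : I) :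
    app M (fun i => c * z i) i = c * app M z i := by
  unfold app
  rw [Finset.mul_sum]
  apply Finset.sum_congr rfl
  intro k _; ring

theorem cover (M : Option C → Option C → ℝ) (hM : Skew M) (hG : Generic M) (S0 : Finset C) (k : ℕ)
    (hk : Even (S0.card + k)) (X : Finset C) (hX : X.Nonempty) :
    ∃! q : Finset C × Bool,
      Even (q.1.card + k) ∧ q.1 ⊆ X ∧ ∀ v ∈ X, gpos M S0 q.1 q.2 v := by
  classical
  set X' := X.map Function.Embedding.some with hX'
  set F : Finset (Option C) := insert none ((S0 \ X).map Function.Embedding.some) with hF
  have hd : Disjoint X' F := by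
    rw [Finset.disjoint_left]
    intro i hi hi'
    rcases i with _ | v
    · simp [hX'] at hi
    · simp only [hX', Finset.mem_map, Function.Embedding.some_apply, Option.some.injEq,
        exists_eq_right] at hi
      simp [hF, hi] at hi'
  have hXn : X'.Nonempty := by rw [hX', Finset.map_nonempty]; exact hX
  -- from a state to a solution
  have toSol : ∀ q : Finset C × Bool, Even (q.1.card + k) → q.1 ⊆ X → (∀ v ∈ X, gpos M S0 q.1 q.2 v) →
      ∀ z, Vec M (symmDiff q.1 S0) z →
        Sol M X' F (fun i => (if q.2 then (1:ℝ) else -1) * z i) := by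
    rintro ⟨S, e⟩ h1 h2 h3 z hz
    simp only at h1 h2 h3 hz ⊢
    have hev : Even (symmDiff S S0).card := (card_symmDiff_even S S0 k hk).2 h1
    set c : ℝ := if e then (1:ℝ) else -1 with hc
    have hc0 : c ≠ 0 := by rw [hc]; split_ifs <;> norm_num
    have hT : ∀ v, v ∉ X → (v ∈ symmDiff S S0 ↔ v ∈ S0) := by
      intro v hv
      have hvS : v ∉ S := fun h => hv (h2 h)
      rw [Finset.mem_symmDiff]; tauto
    have hpos : ∀ v ∈ X, 0 < c * coordD M (symmDiff S S0) z v := by
      intro v hv
      obtain ⟨z', hz', hp⟩ := h3 v hv
      rw [vec_unique M hG _ hev z z' hz hz']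
      exact hp
    refine ⟨?_, ?_, ?_, ?_, ?_⟩
    · intro i hi hi'
      rcases i with _ | v
      · simp [hF] at hi'
      · have hvX : v ∉ X := by intro h; apply hi; simp [hX', h]
        have hvS0 : v ∉ S0 := by
          intro h; apply hi'; simp [hF, h, hvX]
        rw [hz.supp v (by rw [hT v hvX]; exact hvS0), mul_zero]
    · intro i hi
      rw [app_smul]
      rcases i with _ | v
      · rw [hz.ker0, mul_zero]
      · simp only [hF, Finset.mem_insert, reduceCtorEq, Finset.mem_map, Finset.mem_sdiff,
          Function.Embedding.some_apply, Option.some.injEq, exists_eq_right, false_or] at hi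
        rw [hz.ker v ((hT v hi.2).2 hi.1), mul_zero]
    · intro i hi
      rcases i with _ | v
      · simp [hX'] at hi
      · have hvX : v ∈ X := by simpa [hX'] using hi
        have := hpos v hvX
        unfold coordD at this
        split_ifs at this with h
        · exact this.le
        · rw [hz.supp v h, mul_zero]
    · intro i hi
      rcases i with _ | v
      · simp [hX'] at hi
      · have hvX : v ∈ X := by simpa [hX'] using hi
        have := hpos v hvX
        rw [app_smul]
        unfold coordD at this
        split_ifs at this with h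
        · rw [hz.ker v h, mul_zero]
        · exact this.le
    · intro h0
      have := congrFun h0 none
      simp only [Pi.zero_apply] at this
      rw [hz.one, mul_one] at this
      exact hc0 this
  -- existence
  obtain ⟨z, hz⟩ := exists_sol F M hM hG X' hd hXn
  obtain ⟨hodd, hne, hap⟩ := hz.struct hM hG
  set Y := F ∪ X'.filter (fun i => z i ≠ 0) with hY
  have hz0 : z none ≠ 0 := hne none (by simp [hY, hF])
  set T : Finset C := univ.filter (fun v => z (some v) ≠ 0) with hT
  have hYT : Y = insert none (T.map Function.Embedding.some) := by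
    ext i
    constructor
    · intro hi
      rcases i with _ | v
      · simp
      · have := hne _ hi
        simp [hT, this]
    · intro hi
      rcases i with _ | v
      · simp [hY, hF]
      · by_contra h
        have hv : z (some v) ≠ 0 := by
          simpa [hT] using hi
        have hvF : some v ∉ F := fun h' => h (by rw [hY]; exact Finset.mem_union_left _ h')
        have hvX : some v ∉ X' := by
          intro h'
          apply h
          rw [hY]; apply Finset.mem_union_right
          rw [Finset.mem_filter]; exact ⟨h', hv⟩
        exact hv (hz.supp _ hvX hvF)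
  have hTeven : Even T.card := by
    have h1 : Y.card = T.card + 1 := by
      rw [hYT, Finset.card_insert_of_notMem (by simp), Finset.card_map]
    rw [h1] at hodd
    rw [Nat.odd_add_one] at hodd
    exact Nat.not_odd_iff_even.1 hodd
  set S := symmDiff T S0 with hS
  have hST : symmDiff S S0 = T := by rw [hS, symmDiff_symmDiff_cancel_right]
  set w : Option C → ℝ := fun i => (z none)⁻¹ * z i with hw
  have hker : ∀ v ∈ T, app M z (some v) = 0 := by
    intro v hv
    have hvY : some v ∈ Y := by rw [hYT]; simp [hv]
    rw [hY] at hvY
    rcases Finset.mem_union.1 hvY with h | h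
    · exact hz.free _ h
    · rw [Finset.mem_filter] at h
      rcases mul_eq_zero.1 (hz.compl hM _ h.1) with h' | h'
      · exact absurd h' h.2
      · exact h'
  have hwv : Vec M T w := by
    refine ⟨?_, ?_, ?_, ?_⟩
    · simp [hw, hz0]
    · intro v hv
      have : z (some v) = 0 := by
        by_contra h; exact hv (by simp [hT, h])
      simp [hw, this]
    · intro v hv
      rw [hw, app_smul, hker v hv, mul_zero]
    · rw [hw, app_smul, hz.free none (by simp [hF]), mul_zero]
  have hzpos : ∀ v ∈ X, 0 < z none * coordD M T w v := by
    intro v hv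
    have hvX' : some v ∈ X' := by simp [hX', hv]
    unfold coordD
    split_ifs with h
    · simp only [hw]
      rw [← mul_assoc, mul_inv_cancel₀ hz0, one_mul]
      have h1 : z (some v) ≠ 0 := by simpa [hT] using h
      exact lt_of_le_of_ne (hz.nn _ hvX') (Ne.symm h1)
    · rw [hw, app_smul, ← mul_assoc, mul_inv_cancel₀ hz0, one_mul]
      have h1 : app M z (some v) ≠ 0 := hap _ (by rw [hYT]; simp [h])
      exact lt_of_le_of_ne (hz.nn' _ hvX') (Ne.symm h1)
  have hSX : S ⊆ X := by
    intro v hv
    by_contra hvX
    have hzv : z (some v) ≠ 0 ↔ v ∈ S0 := by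
      constructor
      · intro h
        by_contra h'
        apply h
        apply hz.supp
        · simp [hX', hvX]
        · simp [hF, h']
      · intro h
        apply hne
        rw [hY]; apply Finset.mem_union_left
        simp [hF, h, hvX]
    rw [hS, Finset.mem_symmDiff] at hv
    have hvT : v ∈ T ↔ z (some v) ≠ 0 := by simp [hT]
    rw [hvT] at hv
    tauto
  refine ⟨(S, decide (0 < z none)), ⟨?_, hSX, ?_⟩, ?_⟩
  · rw [← card_symmDiff_even S S0 k hk, hST]; exact hTeven
  · intro v hv
    refine ⟨w, by rw [hST]; exact hwv, ?_⟩
    simp only [hST]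
    have h1 := hzpos v hv
    rcases lt_or_gt_of_ne hz0 with h | h
    · have : ¬ (0 < z none) := not_lt.2 h.le
      simp only [this, decide_false, Bool.false_eq_true, if_false]
      nlinarith
    · simp only [h, decide_true, if_true, one_mul]
      exact (pos_iff_pos_of_mul_pos h1).1 h
  · -- uniqueness
    have huniq : ∀ q q' : Finset C × Bool,
        (Even (q.1.card + k) ∧ q.1 ⊆ X ∧ ∀ v ∈ X, gpos M S0 q.1 q.2 v) →
        (Even (q'.1.card + k) ∧ q'.1 ⊆ X ∧ ∀ v ∈ X, gpos M S0 q'.1 q'.2 v) → q = q' := by
      rintro ⟨S1, e1⟩ ⟨S2, e2⟩ ⟨h1, h2, h3⟩ ⟨h1', h2', h3'⟩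
      have hev1 : Even (symmDiff S1 S0).card := (card_symmDiff_even S1 S0 k hk).2 h1
      have hev2 : Even (symmDiff S2 S0).card := (card_symmDiff_even S2 S0 k hk).2 h1'
      obtain ⟨z1, hz1⟩ := vec_exists M hM hG _ hev1
      obtain ⟨z2, hz2⟩ := vec_exists M hM hG _ hev2
      have s1 := toSol (S1, e1) h1 h2 h3 z1 hz1
      have s2 := toSol (S2, e2) h1' h2' h3' z2 hz2
      obtain ⟨c, hc, hcz⟩ := s1.unique hM hG hd hXn s2
      have hn := congrFun hcz none
      simp only [hz1.one, hz2.one, mul_one] at hn
      have he : e1 = e2 ∧ c = 1 := by
        cases e1 <;> cases e2 <;> simp at hn ⊢ <;> linarith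
      obtain ⟨rfl, rfl⟩ := he
      have hzz : z1 = z2 := by
        funext i
        have := congrFun hcz i
        simp only [one_mul] at this
        have hc0 : (if e1 then (1:ℝ) else -1) ≠ 0 := by split_ifs <;> norm_num
        exact mul_left_cancel₀ hc0 this
      have hTT : symmDiff S1 S0 = symmDiff S2 S0 := by
        ext v
        have a1 : v ∈ symmDiff S1 S0 ↔ z1 (some v) ≠ 0 := by
          constructor
          · intro h
            have := vec_ne M hG _ z1 hz1 v
            unfold coordD at this
            rwa [if_pos h] at this
          · intro h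
            by_contra h'
            exact h (hz1.supp v h')
        have a2 : v ∈ symmDiff S2 S0 ↔ z2 (some v) ≠ 0 := by
          constructor
          · intro h
            have := vec_ne M hG _ z2 hz2 v
            unfold coordD at this
            rwa [if_pos h] at this
          · intro h
            by_contra h'
            exact h (hz2.supp v h')
        rw [a1, a2, hzz]
      have : S1 = S2 := by
        have := congrArg (fun A => symmDiff A S0) hTT
        simpa [symmDiff_symmDiff_cancel_right] using this
      rw [this]
    intro q hq
    apply huniq q _ hq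
    refine ⟨?_, hSX, ?_⟩
    · change Even (S.card + k)
      rw [← card_symmDiff_even S S0 k hk, hST]; exact hTeven
    · intro v hv
      refine ⟨w, by simp only [hST]; exact hwv, ?_⟩
      simp only [hST]
      have h1 := hzpos v hv
      rcases lt_or_gt_of_ne hz0 with h | h
      · have : ¬ (0 < z none) := not_lt.2 h.le
        simp only [this, decide_false, Bool.false_eq_true, if_false]
        nlinarith
      · simp only [h, decide_true, if_true, one_mul]
        exact (pos_iff_pos_of_mul_pos h1).1 h

end Pool.Agent.V11208.UB
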