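import Pool.Agent.V11208.UB.Perturb
import Pool.Agent.V11208.UB.Time

/-! The bound on the number of ascending plus descending states. -/

namespace Pool.Agent.V11208.UB
open Finset BigOperators

variable {V : Type*} {C : Type*} [Fintype C] [DecidableEq C]

/-- `b` reaches everything -/
def OneCycle (ρ : Equiv.Perm V) (b : V) : Prop := ∀ v, Reach ρ b v

/-- indicator of `a < b` -/
noncomputable def lt01 (a b : ℕ) : ℝ := if a < b then 1 else 0

section
variable (o u : C → V) (t : V → ℕ)

/-- potential -/
noncomputable def hpot (y : C → ℝ) (n : ℕ) : ℝ :=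
  ∑ c, y c * (lt01 (t (u c)) n - lt01 (t (o c)) n)

/-- the interlacement matrix with its border -/
noncomputable def gm : Option C → Option C → ℝ
  | none, none => 0
  | some v, none => (t (o v) : ℝ) - t (u v)
  | none, some v => (t (u v) : ℝ) - t (o v)
  | some v, some c => if v = c then 0 else
      (lt01 (t (u c)) (t (o v)) + lt01 (t (o c)) (t (u v))
        - lt01 (t (o c)) (t (o v)) - lt01 (t (u c)) (t (u v)))

theorem lt01_add {a b : ℕ} (h : a ≠ b) : lt01 a b + lt01 b a = 1 := by
  unfold lt01
  rcases lt_or_gt_of_ne h with h | h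
  · simp [h, h.not_gt]
  · simp [h, h.not_gt]

theorem lt01_self (a : ℕ) : lt01 a a = 0 := by simp [lt01]

theorem gm_skew (hd : Distinct o u) (ht : Function.Injective t) : Skew (gm o u t) := by
  intro i j
  rcases i with _ | v <;> rcases j with _ | c
  · simp [gm]
  · simp [gm]
  · simp [gm]
  · by_cases hvc : v = c
    · subst hvc; simp [gm]
    · have hcv : c ≠ v := fun h => hvc h.symm
      simp only [gm, if_neg hvc, if_neg hcv]
      have e1 := lt01_add (a := t (u c)) (b := t (o v)) (fun h => hd.ou _ _ (ht h).symm)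
      have e2 := lt01_add (a := t (o c)) (b := t (u v)) (fun h => hd.ou _ _ (ht h))
      have e3 := lt01_add (a := t (o c)) (b := t (o v)) (fun h => hvc (hd.oo _ _ (ht h)).symm)
      have e4 := lt01_add (a := t (u c)) (b := t (u v)) (fun h => hvc (hd.uu _ _ (ht h)).symm)
      linarith

theorem hpot_diff (hd : Distinct o u) (ht : Function.Injective t) (y : C → ℝ) (v : C) :
    hpot o u t y (t (o v)) - hpot o u t y (t (u v)) =
      (∑ c, gm o u t (some v) (some c) * y c) + y v := by
  unfold hpot
  rw [← Finset.sum_sub_distrib]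
  have h1 : y v = ∑ c, if v = c then y c else 0 := by simp
  conv_rhs => rw [h1]
  rw [← Finset.sum_add_distrib]
  apply Finset.sum_congr rfl
  intro c _
  by_cases hvc : v = c
  · subst hvc
    simp only [gm, if_true, lt01_self]
    have e1 := lt01_add (a := t (u v)) (b := t (o v)) (fun h => hd.ou _ _ (ht h).symm)
    linear_combination (y v) * e1
  · simp only [gm, if_neg hvc]
    ring

theorem hpot_zero (y : C → ℝ) : hpot o u t y 0 = 0 := by
  simp [hpot, lt01]

theorem hpot_succ [DecidableEq V] (y : C → ℝ) (ht : Function.Injective t) (v : V) :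
    hpot o u t y (t v + 1) = hpot o u t y (t v) +
      ∑ c, y c * ((if u c = v then 1 else 0) - (if o c = v then 1 else 0)) := by
  classical
  unfold hpot
  rw [← Finset.sum_add_distrib]
  apply Finset.sum_congr rfl
  intro c _
  have key : ∀ w : V, lt01 (t w) (t v + 1) = lt01 (t w) (t v) + (if w = v then 1 else 0) := by
    intro w
    unfold lt01
    by_cases h : w = v
    · subst h; simp
    · have : t w ≠ t v := fun h' => h (ht h')
      by_cases h2 : t w < t v
      · simp [h2, h, Nat.lt_succ_of_lt h2]
      · have : ¬ t w < t v + 1 := by omega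
        simp [h2, h, this]
  rw [key, key]; ring

theorem jump_o [DecidableEq V] (hd : Distinct o u) (y : C → ℝ) (d : C) :
    ∑ c, y c * ((if u c = o d then (1:ℝ) else 0) - (if o c = o d then 1 else 0)) = - y d := by
  have : ∀ c, y c * ((if u c = o d then (1:ℝ) else 0) - (if o c = o d then 1 else 0)) =
      if c = d then - y d else 0 := by
    intro c
    have h1 : u c ≠ o d := fun h => hd.ou _ _ h.symm
    by_cases h : c = d
    · subst h; simp [h1]
    · have h2 : o c ≠ o d := fun h' => h (hd.oo _ _ h')
      simp [h1, h2, h]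
  rw [Finset.sum_congr rfl (fun c _ => this c)]
  simp

theorem jump_u [DecidableEq V] (hd : Distinct o u) (y : C → ℝ) (d : C) :
    ∑ c, y c * ((if u c = u d then (1:ℝ) else 0) - (if o c = u d then 1 else 0)) = y d := by
  have : ∀ c, y c * ((if u c = u d then (1:ℝ) else 0) - (if o c = u d then 1 else 0)) =
      if c = d then y d else 0 := by
    intro c
    have h1 : o c ≠ u d := hd.ou _ _
    by_cases h : c = d
    · subst h; simp [h1]
    · have h2 : u c ≠ u d := fun h' => h (hd.uu _ _ h')
      simp [h1, h2, h]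
  rw [Finset.sum_congr rfl (fun c _ => this c)]
  simp

theorem jump_other [DecidableEq V] (y : C → ℝ) (v : V) (h1 : ∀ c, o c ≠ v) (h2 : ∀ c, u c ≠ v) :
    ∑ c, y c * ((if u c = v then (1:ℝ) else 0) - (if o c = v then 1 else 0)) = 0 := by
  apply Finset.sum_eq_zero
  intro c _
  simp [h1 c, h2 c]

end

/-- relation between two traversals -/
theorem robust_of_cycles (o u : C → V) (hd : Distinct o u) (ρ0 : Equiv.Perm V) (b : V)
    (T : Finset C) (h0 : OneCycle ρ0 b) (h1 : OneCycle (ρ0 * tau o u T) b) (S : Finset C) (e : Bool)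
    (hS : ∀ v ∈ S, 0 < (if e then (1:ℝ) else -1) *
      ((tm (ρ0 * tau o u T) b (o v) : ℝ) - tm (ρ0 * tau o u T) b (u v))) :
    Robust (gm o u (tm ρ0 b)) T S e := by
  classical
  set ρ := ρ0 * tau o u T with hρ
  set t0 := tm ρ0 b with ht0
  set t := tm ρ b with ht
  have ht0i : Function.Injective t0 := fun v w h => tm_inj (h0 v) (h0 w) h
  have hti : Function.Injective t := fun v w h => tm_inj (h1 v) (h1 w) h
  have hρτ : ∀ q, ρ (tauFun o u T q) = ρ0 q := by
    intro q
    rw [hρ, Equiv.Perm.mul_apply, tau_apply hd, tauFun_invol hd T q]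
  -- the difference of the two times
  set y : C → ℝ := fun c => if c ∈ T then (t (o c) : ℝ) - t (u c) else 0 with hy
  have hjump : ∀ q, (t (tauFun o u T q) : ℝ) - t q =
      ∑ c, y c * ((if u c = q then (1:ℝ) else 0) - (if o c = q then 1 else 0)) := by
    intro q
    rcases tau_cases (o := o) (u := u) q with ⟨d, rfl⟩ | ⟨d, rfl⟩ | ⟨a1, a2⟩
    · rw [jump_o o u hd y d]
      by_cases hT : d ∈ T
      · rw [tauFun_o hd T d hT]; simp [hy, hT]
      · rw [tauFun_o_not hd T d hT]; simp [hy, hT]
    · rw [jump_u o u hd y d]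
      by_cases hT : d ∈ T
      · rw [tauFun_u hd T d hT]; simp [hy, hT]
      · rw [tauFun_u_not hd T d hT]; simp [hy, hT]
    · rw [jump_other o u y q a1 a2, tauFun_other T q a1 a2, sub_self]
  have hdiff : ∀ v, (t v : ℝ) - t0 v = hpot o u t0 y (t0 v) := by
    intro v
    refine orbit_induction (ρ := ρ0) (b := b) (P := fun v => (t v : ℝ) - t0 v = hpot o u t0 y (t0 v))
      ?_ ?_ v (h0 v)
    · simp only [ht, ht0, tm_base]
      rw [hpot_zero]; simp
    · intro q hq ih hqb
      have e0 : t0 (ρ0 q) = t0 q + 1 := tm_step hq hqb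
      have e1 : t (ρ0 q) = t (tauFun o u T q) + 1 := by
        rw [← hρτ q]
        exact tm_step (h1 _) (by rw [hρτ]; exact hqb)
      rw [e0, e1, hpot_succ o u t0 y ht0i q, ← ih, ← hjump q]
      push_cast; ring
  have hD : ∀ v : C, (t (o v) : ℝ) - t (u v) =
      app (gm o u t0) (fun i => match i with | none => (1:ℝ) | some c => y c) (some v) + y v := by
    intro v
    have a1 := hdiff (o v)
    have a2 := hdiff (u v)
    have a3 := hpot_diff o u t0 hd ht0i y v
    rw [app, Fintype.sum_option]
    simp only [mul_one]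
    have a4 : gm o u t0 (some v) none = (t0 (o v) : ℝ) - t0 (u v) := rfl
    rw [a4]
    linarith
  set z : Option C → ℝ := fun i => match i with | none => (1:ℝ) | some c => y c with hz
  have hvec : Vec (gm o u t0) T z := by
    have hsupp : ∀ v, v ∉ T → z (some v) = 0 := by
      intro v hv; simp [hz, hy, hv]
    have hker : ∀ v ∈ T, app (gm o u t0) z (some v) = 0 := by
      intro v hv
      have := hD v
      have h2 : y v = (t (o v) : ℝ) - t (u v) := by simp [hy, hv]
      linarith
    refine ⟨rfl, hsupp, hker, ?_⟩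
    have h0 := pairing_self _ (gm_skew o u t0 hd ht0i) z
    rw [Fintype.sum_option, Finset.sum_eq_zero] at h0
    · simpa [hz] using h0
    · intro v _
      by_cases hv : v ∈ T
      · rw [hker v hv, mul_zero]
      · rw [hsupp v hv, zero_mul]
  refine ⟨?_, z, hvec, ?_⟩
  · -- nonsingularity
    intro y' hy1 hy2
    have hjump' : ∀ q, hpot o u t0 y' (t0 (tauFun o u T q)) +
        (∑ c, y' c * ((if u c = tauFun o u T q then (1:ℝ) else 0) -
          (if o c = tauFun o u T q then 1 else 0))) = hpot o u t0 y' (t0 q) := by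
      intro q
      rcases tau_cases (o := o) (u := u) q with ⟨d, rfl⟩ | ⟨d, rfl⟩ | ⟨a1, a2⟩
      · by_cases hT : d ∈ T
        · rw [tauFun_o hd T d hT, jump_u o u hd y' d]
          have a3 := hpot_diff o u t0 hd ht0i y' d
          rw [hy2 d hT] at a3
          linarith
        · rw [tauFun_o_not hd T d hT, jump_o o u hd y' d, hy1 d hT]; simp
      · by_cases hT : d ∈ T
        · rw [tauFun_u hd T d hT, jump_o o u hd y' d]
          have a3 := hpot_diff o u t0 hd ht0i y' d
          rw [hy2 d hT] at a3
          linarith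
        · rw [tauFun_u_not hd T d hT, jump_u o u hd y' d, hy1 d hT]; simp
      · rw [tauFun_other T q a1 a2, jump_other o u y' q a1 a2, add_zero]
    have hconst : ∀ v, hpot o u t0 y' (t0 v) = 0 := by
      intro v
      refine orbit_induction (ρ := ρ) (b := b) (P := fun v => hpot o u t0 y' (t0 v) = 0)
        ?_ ?_ v (h1 v)
      · simp only [ht0, tm_base]; rw [hpot_zero]
      · intro q hq ih hqb
        have e2 : ρ q = ρ0 (tauFun o u T q) := by
          rw [← hρτ (tauFun o u T q), tauFun_invol hd T q]
        rw [e2] at hqb ⊢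
        have e0 : t0 (ρ0 (tauFun o u T q)) = t0 (tauFun o u T q) + 1 := tm_step (h0 _) hqb
        rw [e0, hpot_succ o u t0 y' ht0i, hjump' q]
        exact ih
    funext v
    by_cases hv : v ∈ T
    · have a3 := hpot_diff o u t0 hd ht0i y' v
      rw [hy2 v hv, hconst, hconst] at a3
      simp only [Pi.zero_apply]
      linarith
    · exact hy1 v hv
  · intro v hv
    have h2 : coordD (gm o u t0) T z v = (t (o v) : ℝ) - t (u v) := by
      unfold coordD
      split_ifs with h
      · simp [hz, hy, h]
      · have := hD v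
        have h3 : y v = 0 := by simp [hy, h]
        linarith
    rw [h2]
    exact hS v hv

open Classical in
/-- descending states of size `k` -/
noncomputable def statesO (σ : Equiv.Perm V) (o u : C → V) (b : V) (k : ℕ) : Finset (Finset C) :=
  univ.filter (fun S => S.card = k ∧ OneCycle (σ * tau o u S) b ∧
    ∀ c ∈ S, tm (σ * tau o u S) b (o c) < tm (σ * tau o u S) b (u c))

open Classical in
/-- ascending states of size `k` -/
noncomputable def statesU (σ : Equiv.Perm V) (o u : C → V) (b : V) (k : ℕ) : Finset (Finset C) :=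
  univ.filter (fun S => S.card = k ∧ OneCycle (σ * tau o u S) b ∧
    ∀ c ∈ S, tm (σ * tau o u S) b (u c) < tm (σ * tau o u S) b (o c))

theorem gauss_bound (σ : Equiv.Perm V) (o u : C → V) (hd : Distinct o u) (b : V) (k : ℕ)
    (hk : k ≤ Fintype.card C) (hpar : Odd (Fintype.card C - k)) :
    (statesO σ o u b k).card + (statesU σ o u b k).card ≤
      2 * ((Fintype.card C + k - 1) / 2).choose k := by
  classical
  by_cases hemp : statesO σ o u b k = ∅ ∧ statesU σ o u b k = ∅
  · rw [hemp.1, hemp.2]; simp
  · have : ∃ S0 : Finset C, S0.card = k ∧ OneCycle (σ * tau o u S0) b := by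
      rw [not_and_or] at hemp
      rcases hemp with h | h
      · obtain ⟨S, hS⟩ := Finset.nonempty_iff_ne_empty.2 h
        rw [statesO, Finset.mem_filter] at hS
        exact ⟨S, hS.2.1, hS.2.2.1⟩
      · obtain ⟨S, hS⟩ := Finset.nonempty_iff_ne_empty.2 h
        rw [statesU, Finset.mem_filter] at hS
        exact ⟨S, hS.2.1, hS.2.2.1⟩
    obtain ⟨S0, hS0c, hS0⟩ := this
    set ρ0 := σ * tau o u S0 with hρ0
    have ht0i : Function.Injective (tm ρ0 b) := fun v w h => tm_inj (hS0 v) (hS0 w) h
    set A : Finset (Finset C × Bool) :=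
      (statesO σ o u b k).map ⟨fun S => (S, false), fun a c h => (Prod.ext_iff.1 h).1⟩ ∪
      (statesU σ o u b k).map ⟨fun S => (S, true), fun a c h => (Prod.ext_iff.1 h).1⟩ with hA
    have hAc : A.card = (statesO σ o u b k).card + (statesU σ o u b k).card := by
      rw [hA, Finset.card_union_of_disjoint, Finset.card_map, Finset.card_map]
      rw [Finset.disjoint_left]
      rintro ⟨S, e⟩ h h'
      simp only [Finset.mem_map, Function.Embedding.coeFn_mk, Prod.mk.injEq] at h h'
      obtain ⟨_, _, _, rfl⟩ := h
      obtain ⟨_, _, _, h2⟩ := h'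
      exact absurd h2 (by simp)
    rw [← hAc]
    apply skew_bound (gm o u (tm ρ0 b)) (gm_skew o u _ hd ht0i) S0 k hk hpar
      (by rw [hS0c]; exact ⟨k, rfl⟩)
    intro q hq
    have hρ : ∀ S : Finset C, ρ0 * tau o u (symmDiff S S0) = σ * tau o u S := by
      intro S
      rw [hρ0, mul_assoc, tau_mul hd, symmDiff_comm S S0, symmDiff_symmDiff_cancel_left]
    rw [hA, Finset.mem_union] at hq
    rcases hq with hq | hq
    · simp only [Finset.mem_map, Function.Embedding.coeFn_mk] at hq
      obtain ⟨S, hS, rfl⟩ := hq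
      rw [statesO, Finset.mem_filter] at hS
      refine ⟨hS.2.1, ?_⟩
      apply robust_of_cycles o u hd ρ0 b _ hS0
      · rw [hρ]; exact hS.2.2.1
      · intro v hv
        simp only [hρ]
        have := hS.2.2.2 v hv
        have h2 : (tm (σ * tau o u S) b (o v) : ℝ) < tm (σ * tau o u S) b (u v) := by
          exact_mod_cast this
        simp only [Bool.false_eq_true, if_false]
        linarith
    · simp only [Finset.mem_map, Function.Embedding.coeFn_mk] at hq
      obtain ⟨S, hS, rfl⟩ := hq
      rw [statesU, Finset.mem_filter] at hS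
      refine ⟨hS.2.1, ?_⟩
      apply robust_of_cycles o u hd ρ0 b _ hS0
      · rw [hρ]; exact hS.2.2.1
      · intro v hv
        simp only [hρ]
        have := hS.2.2.2 v hv
        have h2 : (tm (σ * tau o u S) b (u v) : ℝ) < tm (σ * tau o u S) b (o v) := by
          exact_mod_cast this
        simp only [if_true]
        linarith

end Pool.Agent.V11208.UB
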