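import Mathlib

/-!
Generic real skew-symmetric matrices: for every nonempty set `X` there is, up to positive
scaling, exactly one complementary non-negative solution.
-/

namespace Pool.Agent.V11208.UB
open Finset BigOperators

variable {I : Type*} [Fintype I] [DecidableEq I]

def Skew (M : I → I → ℝ) : Prop := ∀ i j, M i j = - M j i

def app (M : I → I → ℝ) (z : I → ℝ) (i : I) : ℝ := ∑ j, M i j * z j

def Generic (M : I → I → ℝ) : Prop :=
  ∀ (Y : Finset I), Even Y.card → ∀ z : I → ℝ, (∀ i, i ∉ Y → z i = 0) →
    (∀ i ∈ Y, app M z i = 0) → z = 0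

theorem pairing (M : I → I → ℝ) (hM : Skew M) (z w : I → ℝ) :
    ∑ i, z i * app M w i = - ∑ i, w i * app M z i := by
  unfold app
  simp only [Finset.mul_sum]
  rw [Finset.sum_comm, ← Finset.sum_neg_distrib]
  apply Finset.sum_congr rfl
  intro i _
  rw [← Finset.sum_neg_distrib]
  apply Finset.sum_congr rfl
  intro j _
  rw [hM j i]; ring

theorem pairing_self (M : I → I → ℝ) (hM : Skew M) (z : I → ℝ) :
    ∑ i, z i * app M z i = 0 := by
  have := pairing M hM z z
  linarith

/-- existence of an optimal strategy -/
theorem exists_opt (M : I → I → ℝ) (hM : Skew M) (X : Finset I) (hX : X.Nonempty) :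
    ∃ z : I → ℝ, (∀ i, i ∉ X → z i = 0) ∧ (∀ i, 0 ≤ z i) ∧ (∀ i ∈ X, 0 ≤ app M z i) ∧ z ≠ 0 := by
  classical
  by_contra hcon
  push Not at hcon
  let L : (I → ℝ) →ₗ[ℝ] (I → ℝ) :=
    { toFun := fun z i => if i ∈ X then app M z i else 0
      map_add' := by
        intro z w; funext i
        by_cases h : i ∈ X
        · simp [h, app, mul_add, Finset.sum_add_distrib]
        · simp [h]
      map_smul' := by
        intro c z; funext i
        by_cases h : i ∈ X
        · simp only [h, if_true, app, Pi.smul_apply, smul_eq_mul, RingHom.id_apply, Finset.mul_sum]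
          apply Finset.sum_congr rfl
          intro j _; ring
        · simp [h] }
  let K : Set (I → ℝ) := stdSimplex ℝ I ∩ {z | ∀ i, i ∉ X → z i = 0}
  have hclosed : IsClosed {z : I → ℝ | ∀ i, i ∉ X → z i = 0} := by
    have : {z : I → ℝ | ∀ i, i ∉ X → z i = 0} = ⋂ i, ⋂ (_ : i ∉ X), {z : I → ℝ | z i = 0} := by
      ext z; simp
    rw [this]
    apply isClosed_iInter; intro i
    apply isClosed_iInter; intro _
    exact isClosed_eq (continuous_apply i) continuous_const
  have hconvK' : Convex ℝ {z : I → ℝ | ∀ i, i ∉ X → z i = 0} := by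
    intro z hz w hw a b _ _ _ i hi
    simp [hz i hi, hw i hi]
  have hKc : IsCompact K := (isCompact_stdSimplex ℝ I).inter_right hclosed
  have hKconv : Convex ℝ K := (convex_stdSimplex ℝ I).inter hconvK'
  have hLcont : Continuous L := L.continuous_of_finiteDimensional
  have hsc : IsCompact (L '' K) := hKc.image hLcont
  have hsconv : Convex ℝ (L '' K) := hKconv.linear_image L
  let t : Set (I → ℝ) := {y | ∀ i ∈ X, 0 ≤ y i}
  have htclosed : IsClosed t := by
    have : t = ⋂ i, ⋂ (_ : i ∈ X), {y : I → ℝ | 0 ≤ y i} := by
      ext z; simp [t]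
    rw [this]
    apply isClosed_iInter; intro i
    apply isClosed_iInter; intro _
    exact isClosed_le continuous_const (continuous_apply i)
  have htconv : Convex ℝ t := by
    intro z hz w hw a b ha hb _ i hi
    simp only [Pi.add_apply, Pi.smul_apply, smul_eq_mul]
    have := hz i hi
    have := hw i hi
    positivity
  have hdisj : Disjoint (L '' K) t := by
    rw [Set.disjoint_left]
    rintro _ ⟨z, ⟨hz, hz'⟩, rfl⟩ ht
    have h3 := hcon z hz' (fun i => hz.1 i) (by
      intro i hi
      have := ht i hi
      simpa [L, hi] using this)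
    rw [h3] at hz
    have := hz.2
    simp at this
  obtain ⟨f, u, v, h1, h2, h3⟩ := geometric_hahn_banach_compact_closed hsconv hsc htconv htclosed hdisj
  have hf : ∀ y : I → ℝ, f y = ∑ i, y i * f (Pi.single i 1) := by
    intro y
    conv_lhs => rw [pi_eq_sum_univ' y]
    rw [map_sum]
    apply Finset.sum_congr rfl
    intro i _
    rw [map_smul, smul_eq_mul]
  have hv : v < 0 := by
    have := h3 0 (by intro i _; simp)
    simpa using this
  set p : I → ℝ := fun i => f (Pi.single i 1) with hp
  have hpnn : ∀ i ∈ X, 0 ≤ p i := by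
    intro i hi
    by_contra hneg
    push Not at hneg
    have hlam : 0 ≤ v / p i := div_nonneg_of_nonpos hv.le hneg.le
    have := h3 ((v / p i) • Pi.single i 1) (by
      intro j _
      by_cases hji : j = i
      · subst hji; simpa using hlam
      · simp [hji])
    rw [map_smul, smul_eq_mul] at this
    change v < v / p i * p i at this
    rw [div_mul_cancel₀ _ hneg.ne] at this
    exact lt_irrefl _ this
  have hfL : ∀ z : I → ℝ, f (L z) = ∑ i ∈ X, app M z i * p i := by
    intro z
    rw [hf]
    rw [← Finset.sum_subset (Finset.subset_univ X)]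
    · apply Finset.sum_congr rfl
      intro i hi
      simp [L, hi, hp]
    · intro i _ hi
      simp [L, hi]
  obtain ⟨i0, hi0⟩ := hX
  have hP : 0 < ∑ i ∈ X, p i := by
    rcases (Finset.sum_nonneg hpnn).lt_or_eq with h | h
    · exact h
    · exfalso
      have hz0 : ∀ i ∈ X, p i = 0 := (Finset.sum_eq_zero_iff_of_nonneg hpnn).1 h.symm
      have hmem : (Pi.single i0 1 : I → ℝ) ∈ K := by
        refine ⟨single_mem_stdSimplex ℝ i0, ?_⟩
        intro i hi
        have : i ≠ i0 := by rintro rfl; exact hi hi0
        simp [this]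
      have := h1 _ ⟨_, hmem, rfl⟩
      rw [hfL, Finset.sum_eq_zero (fun i hi => by rw [hz0 i hi, mul_zero])] at this
      linarith
  set P := ∑ i ∈ X, p i with hPdef
  let z : I → ℝ := fun i => if i ∈ X then p i / P else 0
  have hzK : z ∈ K := by
    refine ⟨⟨?_, ?_⟩, ?_⟩
    · intro i
      by_cases hi : i ∈ X
      · simp only [z, hi, if_true]; exact div_nonneg (hpnn i hi) hP.le
      · simp [z, hi]
    · simp only [z]
      rw [← Finset.sum_subset (Finset.subset_univ X) (by intro i _ hi; simp [hi])]
      rw [Finset.sum_congr rfl (fun i hi => if_pos hi), ← Finset.sum_div]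
      exact div_self hP.ne'
    · intro i hi
      simp [z, hi]
  have := h1 _ ⟨z, hzK, rfl⟩
  rw [hfL] at this
  have hz0 : ∑ i ∈ X, app M z i * p i = 0 := by
    have h0 := pairing_self M hM z
    rw [← Finset.sum_subset (Finset.subset_univ X) (by intro i _ hi; simp [z, hi])] at h0
    have h1' : ∑ i ∈ X, z i * app M z i = (∑ i ∈ X, app M z i * p i) / P := by
      rw [Finset.sum_div]
      apply Finset.sum_congr rfl
      intro i hi
      have : z i = p i / P := by simp [z, hi]
      rw [this]; ring
    rw [h1'] at h0
    rcases div_eq_zero_iff.1 h0 with h | h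
    · exact h
    · exact absurd h hP.ne'
  rw [hz0] at this
  linarith

/-- complementary non-negative solutions -/
structure Sol (M : I → I → ℝ) (X F : Finset I) (z : I → ℝ) : Prop where
  supp : ∀ i, i ∉ X → i ∉ F → z i = 0
  free : ∀ i ∈ F, app M z i = 0
  nn : ∀ i ∈ X, 0 ≤ z i
  nn' : ∀ i ∈ X, 0 ≤ app M z i
  ne : z ≠ 0

theorem ker_struct (M : I → I → ℝ) (hG : Generic M) (Y : Finset I) (z : I → ℝ) (hz : z ≠ 0)
    (h1 : ∀ i, i ∉ Y → z i = 0) (h2 : ∀ i ∈ Y, app M z i = 0) :
    Odd Y.card ∧ (∀ i ∈ Y, z i ≠ 0) ∧ (∀ i, i ∉ Y → app M z i ≠ 0) := by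
  have hodd : Odd Y.card := by
    by_contra h
    rw [Nat.not_odd_iff_even] at h
    exact hz (hG Y h z h1 h2)
  refine ⟨hodd, ?_, ?_⟩
  · intro i hi hzi
    apply hz
    apply hG (Y.erase i)
    · rw [Finset.card_erase_of_mem hi]
      obtain ⟨m, hm⟩ := hodd
      exact ⟨m, by omega⟩
    · intro j hj
      by_cases hji : j = i
      · rw [hji, hzi]
      · apply h1
        intro hjY
        exact hj (Finset.mem_erase.2 ⟨hji, hjY⟩)
    · intro j hj
      exact h2 j (Finset.mem_of_mem_erase hj)
  · intro i hi hai
    apply hz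
    apply hG (insert i Y)
    · rw [Finset.card_insert_of_notMem hi]
      obtain ⟨m, hm⟩ := hodd
      exact ⟨m + 1, by omega⟩
    · intro j hj
      apply h1
      intro hjY
      exact hj (Finset.mem_insert_of_mem hjY)
    · intro j hj
      rcases Finset.mem_insert.1 hj with rfl | hj
      · exact hai
      · exact h2 j hj

theorem Sol.compl {M : I → I → ℝ} (hM : Skew M) {X F : Finset I} {z : I → ℝ}
    (h : Sol M X F z) : ∀ i ∈ X, z i * app M z i = 0 := by
  classical
  have h0 := pairing_self M hM z
  have hnn : ∀ i ∈ (Finset.univ : Finset I), 0 ≤ z i * app M z i := by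
    intro i _
    by_cases hX : i ∈ X
    · exact mul_nonneg (h.nn i hX) (h.nn' i hX)
    · by_cases hF : i ∈ F
      · rw [h.free i hF, mul_zero]
      · rw [h.supp i hX hF, zero_mul]
  intro i _
  exact (Finset.sum_eq_zero_iff_of_nonneg hnn).1 h0 i (Finset.mem_univ i)

theorem Sol.struct {M : I → I → ℝ} (hM : Skew M) (hG : Generic M) {X F : Finset I} {z : I → ℝ}
    (h : Sol M X F z) :
    Odd (F ∪ X.filter (fun i => z i ≠ 0)).card ∧
    (∀ i ∈ F ∪ X.filter (fun i => z i ≠ 0), z i ≠ 0) ∧
    (∀ i, i ∉ F ∪ X.filter (fun i => z i ≠ 0) → app M z i ≠ 0) := by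
  apply ker_struct M hG _ z h.ne
  · intro i hi
    simp only [Finset.mem_union, Finset.mem_filter, not_or, not_and, not_not] at hi
    by_cases hX : i ∈ X
    · exact hi.2 hX
    · exact h.supp i hX hi.1
  · intro i hi
    simp only [Finset.mem_union, Finset.mem_filter] at hi
    rcases hi with hi | ⟨hi, hne⟩
    · exact h.free i hi
    · rcases mul_eq_zero.1 (h.compl hM i hi) with h' | h'
      · exact absurd h' hne
      · exact h'

/-- uniqueness up to positive scaling -/
theorem Sol.unique {M : I → I → ℝ} (hM : Skew M) (hG : Generic M) {X F : Finset I}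
    (hd : Disjoint X F) (hX : X.Nonempty) {z w : I → ℝ}
    (hz : Sol M X F z) (hw : Sol M X F w) : ∃ c : ℝ, 0 < c ∧ z = fun i => c * w i := by
  classical
  obtain ⟨zodd, zne, zap⟩ := hz.struct hM hG
  obtain ⟨wodd, wne, wap⟩ := hw.struct hM hG
  -- cross pairing
  have hp := pairing M hM z w
  have hsum : ∑ i, (z i * app M w i + w i * app M z i) = 0 := by
    rw [Finset.sum_add_distrib]; linarith
  have hnn : ∀ i ∈ (Finset.univ : Finset I), 0 ≤ z i * app M w i + w i * app M z i := by
    intro i _
    by_cases hiX : i ∈ X
    · have := mul_nonneg (hz.nn i hiX) (hw.nn' i hiX)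
      have := mul_nonneg (hw.nn i hiX) (hz.nn' i hiX)
      linarith
    · by_cases hF : i ∈ F
      · rw [hz.free i hF, hw.free i hF]; simp
      · rw [hz.supp i hiX hF, hw.supp i hiX hF]; simp
  have hall := (Finset.sum_eq_zero_iff_of_nonneg hnn).1 hsum
  have hzw : ∀ i ∈ X, z i * app M w i = 0 ∧ w i * app M z i = 0 := by
    intro i hi
    have h0 := hall i (Finset.mem_univ i)
    have h1 := mul_nonneg (hz.nn i hi) (hw.nn' i hi)
    have h2 := mul_nonneg (hw.nn i hi) (hz.nn' i hi)
    constructor <;> linarith
  have hsame : ∀ i ∈ X, (z i ≠ 0 ↔ w i ≠ 0) := by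
    intro i hi
    have hiF : i ∉ F := Finset.disjoint_left.1 hd hi
    constructor
    · intro h hw0
      have h1 : app M w i = 0 := by
        rcases mul_eq_zero.1 (hzw i hi).1 with h' | h'
        · exact absurd h' h
        · exact h'
      exact wap i (by simp [hiF, hw0]) h1
    · intro h hz0
      have h1 : app M z i = 0 := by
        rcases mul_eq_zero.1 (hzw i hi).2 with h' | h'
        · exact absurd h' h
        · exact h'
      exact zap i (by simp [hiF, hz0]) h1
  have hY : F ∪ X.filter (fun i => z i ≠ 0) = F ∪ X.filter (fun i => w i ≠ 0) := by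
    congr 1
    apply Finset.filter_congr
    intro i hi
    exact hsame i hi
  set Y := F ∪ X.filter (fun i => w i ≠ 0) with hYdef
  rw [hY] at zodd zne zap
  obtain ⟨j, hj⟩ : Y.Nonempty := by
    rw [← Finset.card_pos]
    obtain ⟨m, hm⟩ := wodd
    omega
  set c := z j / w j with hc
  have hwj : w j ≠ 0 := wne j hj
  have hzj : z j ≠ 0 := zne j hj
  have hc0 : c ≠ 0 := div_ne_zero hzj hwj
  have happ : ∀ i, app M (fun i => z i - c * w i) i = app M z i - c * app M w i := by
    intro i
    unfold app
    rw [Finset.mul_sum, ← Finset.sum_sub_distrib]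
    apply Finset.sum_congr rfl
    intro k _; ring
  have hzero : ∀ i, i ∉ Y → z i = 0 ∧ w i = 0 := by
    intro i hi
    have h1 : i ∉ F ∪ X.filter (fun i => z i ≠ 0) := by rw [hY]; exact hi
    simp only [hYdef, Finset.mem_union, Finset.mem_filter, not_or, not_and, not_not] at hi h1
    by_cases hX : i ∈ X
    · exact ⟨h1.2 hX, hi.2 hX⟩
    · exact ⟨hz.supp i hX hi.1, hw.supp i hX hi.1⟩
  have hker : ∀ i ∈ Y, app M z i = 0 ∧ app M w i = 0 := by
    intro i hi
    have h1 : i ∈ F ∪ X.filter (fun i => z i ≠ 0) := by rw [hY]; exact hi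
    have hi' := hi
    simp only [hYdef, Finset.mem_union, Finset.mem_filter] at hi'
    rcases hi' with h | ⟨hX, hne⟩
    · exact ⟨hz.free i h, hw.free i h⟩
    · constructor
      · rcases mul_eq_zero.1 (hz.compl hM i hX) with h' | h'
        · exact absurd h' ((hsame i hX).2 hne)
        · exact h'
      · rcases mul_eq_zero.1 (hw.compl hM i hX) with h' | h'
        · exact absurd h' hne
        · exact h'
  have hdiff : (fun i => z i - c * w i) = 0 := by
    apply hG (Y.erase j)
    · rw [Finset.card_erase_of_mem hj]
      obtain ⟨m, hm⟩ := wodd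
      exact ⟨m, by omega⟩
    · intro i hi
      by_cases hij : i = j
      · subst hij
        simp only [hc]
        field_simp
        ring
      · have : i ∉ Y := fun h => hi (Finset.mem_erase.2 ⟨hij, h⟩)
        obtain ⟨h1, h2⟩ := hzero i this
        simp [h1, h2]
    · intro i hi
      have hiY := Finset.mem_of_mem_erase hi
      obtain ⟨h1, h2⟩ := hker i hiY
      rw [happ, h1, h2]; simp
  have heq : ∀ i, z i = c * w i := by
    intro i
    have := congrFun hdiff i
    simp at this
    linarith
  refine ⟨c, ?_, funext heq⟩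
  -- positivity of c
  obtain ⟨i, hi⟩ := hX
  by_cases hwi : w i = 0
  · have hiF : i ∉ F := Finset.disjoint_left.1 hd hi
    have h1 : app M w i ≠ 0 := wap i (by simp [hYdef, hiF, hwi])
    have h2 : app M z i = c * app M w i := by
      unfold app
      rw [Finset.mul_sum]
      apply Finset.sum_congr rfl
      intro k _
      rw [heq k]; ring
    have h3 : 0 < app M w i := lt_of_le_of_ne (hw.nn' i hi) (Ne.symm h1)
    have h4 := hz.nn' i hi
    rw [h2] at h4
    rcases lt_or_gt_of_ne hc0 with h | h
    · exfalso; nlinarith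
    · exact h
  · have h3 : 0 < w i := lt_of_le_of_ne (hw.nn i hi) (Ne.symm hwi)
    have h4 := hz.nn i hi
    rw [heq i] at h4
    rcases lt_or_gt_of_ne hc0 with h | h
    · exfalso; nlinarith
    · exact h

/-! ### existence in general -/

def flip (f : I) (M : I → I → ℝ) : I → I → ℝ :=
  fun i j => (if i = f then (-1) else 1) * M i j * (if j = f then (-1) else 1)

theorem flip_skew (f : I) {M : I → I → ℝ} (hM : Skew M) : Skew (flip f M) := by
  intro i j
  simp only [flip]
  rw [hM i j]; ring

theorem app_flip (f : I) (M : I → I → ℝ) (z : I → ℝ) (i : I) :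
    app (flip f M) z i = (if i = f then (-1) else 1) *
      app M (fun j => (if j = f then (-1) else 1) * z j) i := by
  unfold app flip
  rw [Finset.mul_sum]
  apply Finset.sum_congr rfl
  intro j _; ring

theorem flip_generic (f : I) {M : I → I → ℝ} (hG : Generic M) : Generic (flip f M) := by
  intro Y hY z h1 h2
  have h3 : (fun j => (if j = f then (-1 : ℝ) else 1) * z j) = 0 := by
    apply hG Y hY
    · intro i hi
      rw [h1 i hi, mul_zero]
    · intro i hi
      have := h2 i hi
      rw [app_flip] at this
      rcases mul_eq_zero.1 this with h | h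
      · split_ifs at h <;> norm_num at h
      · exact h
  funext j
  have := congrFun h3 j
  simp only [Pi.zero_apply] at this ⊢
  rcases mul_eq_zero.1 this with h | h
  · split_ifs at h <;> norm_num at h
  · exact h

theorem exists_sol (F : Finset I) : ∀ (M : I → I → ℝ), Skew M → Generic M → ∀ (X : Finset I),
    Disjoint X F → X.Nonempty → ∃ z, Sol M X F z := by
  classical
  induction F using Finset.induction_on with
  | empty =>
    intro M hM hG X _ hX
    obtain ⟨z, h1, h2, h3, h4⟩ := exists_opt M hM X hX
    exact ⟨z, ⟨fun i hi _ => h1 i hi, by simp, fun i _ => h2 i, h3, h4⟩⟩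
  | insert f F hf ih =>
    intro M hM hG X hd hX
    rw [Finset.disjoint_insert_right] at hd
    obtain ⟨hfX, hd⟩ := hd
    obtain ⟨ζ, hζ⟩ := ih M hM hG X hd hX
    obtain ⟨hodd, hne, hap⟩ := hζ.struct hM hG
    have hapf : app M ζ f ≠ 0 := hap f (by simp [hf, hfX])
    have hdf : Disjoint (insert f X) F := by
      rw [Finset.disjoint_insert_left]; exact ⟨hf, hd⟩
    -- key: a solution whose coordinates at `f` have the wrong sign
    have key : ∀ z : I → ℝ, (∀ i, i ∉ X → i ≠ f → i ∉ F → z i = 0) → (∀ i ∈ F, app M z i = 0) →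
        (∀ i ∈ X, 0 ≤ z i) → (∀ i ∈ X, 0 ≤ app M z i) → z ≠ 0 → z f * app M z f = 0 →
        (app M z f = 0 ∨ app M z f * app M ζ f < 0) → Sol M X (insert f F) z := by
      intro z s1 s2 s3 s4 s5 s6 s7
      by_cases hzf : z f = 0
      · exfalso
        have hsol : Sol M X F z := by
          refine ⟨?_, s2, s3, s4, s5⟩
          intro i hi hi'
          by_cases hif : i = f
          · rw [hif, hzf]
          · exact s1 i hi hif hi'
        obtain ⟨c, hc, hcz⟩ := hsol.unique hM hG hd hX hζ
        have h2 : app M z f = c * app M ζ f := by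
          unfold app
          rw [Finset.mul_sum]
          apply Finset.sum_congr rfl
          intro k _
          rw [hcz]; ring
        rcases s7 with h | h
        · rw [h2] at h
          rcases mul_eq_zero.1 h with h | h
          · exact hc.ne' h
          · exact hapf h
        · rw [h2] at h
          have : 0 < c * (app M ζ f * app M ζ f) := mul_pos hc (mul_self_pos.2 hapf)
          nlinarith
      · have h0 : app M z f = 0 := by
          rcases mul_eq_zero.1 s6 with h | h
          · exact absurd h hzf
          · exact h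
        refine ⟨?_, ?_, s3, s4, s5⟩
        · intro i hi hi'
          rw [Finset.mem_insert, not_or] at hi'
          exact s1 i hi hi'.1 hi'.2
        · intro i hi
          rcases Finset.mem_insert.1 hi with rfl | hi
          · exact h0
          · exact s2 i hi
    rcases lt_or_gt_of_ne hapf with hneg | hpos
    · -- use `M` itself
      obtain ⟨z, hz⟩ := ih M hM hG (insert f X) hdf ⟨f, Finset.mem_insert_self f X⟩
      refine ⟨z, key z ?_ hz.free ?_ ?_ hz.ne ?_ ?_⟩
      · intro i hi hif hiF
        exact hz.supp i (by simp [hi, hif]) hiF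
      · intro i hi; exact hz.nn i (Finset.mem_insert_of_mem hi)
      · intro i hi; exact hz.nn' i (Finset.mem_insert_of_mem hi)
      · exact hz.compl hM f (Finset.mem_insert_self f X)
      · rcases (hz.nn' f (Finset.mem_insert_self f X)).lt_or_eq with h | h
        · right; nlinarith
        · left; exact h.symm
    · obtain ⟨z', hz'⟩ := ih (flip f M) (flip_skew f hM) (flip_generic f hG) (insert f X) hdf
        ⟨f, Finset.mem_insert_self f X⟩
      set z : I → ℝ := fun j => (if j = f then (-1 : ℝ) else 1) * z' j with hz
      have happ : ∀ i, app (flip f M) z' i = (if i = f then (-1) else 1) * app M z i := by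
        intro i; rw [app_flip]
      have happ' : ∀ i, i ≠ f → app M z i = app (flip f M) z' i := by
        intro i hi; rw [happ i, if_neg hi, one_mul]
      have happf : app M z f = - app (flip f M) z' f := by
        rw [happ f, if_pos rfl]; ring
      have hcf := hz'.compl (flip_skew f hM) f (Finset.mem_insert_self f X)
      refine ⟨z, key z ?_ ?_ ?_ ?_ ?_ ?_ ?_⟩
      · intro i hi hif hiF
        simp only [hz]
        rw [hz'.supp i (by simp [hi, hif]) hiF, mul_zero]
      · intro i hi
        have : i ≠ f := by rintro rfl; exact hf hi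
        rw [happ' i this, hz'.free i hi]
      · intro i hi
        have : i ≠ f := by rintro rfl; exact hfX hi
        simp only [hz, if_neg this, one_mul]
        exact hz'.nn i (Finset.mem_insert_of_mem hi)
      · intro i hi
        have : i ≠ f := by rintro rfl; exact hfX hi
        rw [happ' i this]
        exact hz'.nn' i (Finset.mem_insert_of_mem hi)
      · intro h0
        apply hz'.ne
        funext j
        have := congrFun h0 j
        simp only [hz, Pi.zero_apply] at this ⊢
        rcases mul_eq_zero.1 this with h | h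
        · split_ifs at h <;> norm_num at h
        · exact h
      · rw [happf]
        simp only [hz, if_true]
        linarith [hcf]
      · rw [happf]
        rcases (hz'.nn' f (Finset.mem_insert_self f X)).lt_or_eq with h | h
        · right; nlinarith
        · left; rw [← h]; simp

end Pool.Agent.V11208.UB
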