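import Pool.Agent.V11208.UB.Cover

/-! Perturbation to a generic skew-symmetric matrix. -/

namespace Pool.Agent.V11208.UB
open Finset BigOperators Filter Topology

section
variable {I : Type*} [Fintype I] [DecidableEq I]

noncomputable def Bmat (r : I → ℕ) : I → I → ℝ := fun i j =>
  if r i < r j then 1 else if r j < r i then -1 else 0

theorem Bmat_skew (r : I → ℕ) : Skew (Bmat r) := by
  intro i j
  unfold Bmat
  rcases lt_trichotomy (r i) (r j) with h | h | h
  · simp [h, h.not_gt]
  · simp [h]
  · simp [h, h.not_gt]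

theorem Bmat_generic (r : I → ℕ) (hr : Function.Injective r) : Generic (Bmat r) := by
  classical
  have key : ∀ (n : ℕ) (Y : Finset I), Y.card = n + n → ∀ z : I → ℝ, (∀ i, i ∉ Y → z i = 0) →
      (∀ i ∈ Y, app (Bmat r) z i = 0) → z = 0 := by
    intro n
    induction n with
    | zero =>
      intro Y hY z h1 _
      have : Y = ∅ := Finset.card_eq_zero.1 (by omega)
      funext i
      exact h1 i (by simp [this])
    | succ n ih =>
      intro Y hY z h1 h2
      have hYn : Y.Nonempty := by rw [← Finset.card_pos]; omega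
      obtain ⟨q, hq, hqmax⟩ := Finset.exists_max_image Y r hYn
      have hc1 : (Y.erase q).card = n + n + 1 := by rw [Finset.card_erase_of_mem hq]; omega
      have hYn' : (Y.erase q).Nonempty := by rw [← Finset.card_pos]; omega
      obtain ⟨p, hp, hpmax⟩ := Finset.exists_max_image (Y.erase q) r hYn'
      have hpq : p ≠ q := (Finset.mem_erase.1 hp).1
      have hpY : p ∈ Y := (Finset.mem_erase.1 hp).2
      set Z := (Y.erase q).erase p with hZ
      have hc2 : Z.card = n + n := by rw [hZ, Finset.card_erase_of_mem hp]; omega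
      have hpZ : p ∉ Z := by simp [hZ]
      have hqZ : q ∉ Z := by simp [hZ]
      have hrpq : r p < r q := lt_of_le_of_ne (hqmax p hpY) (fun h => hpq (hr h))
      have hrZp : ∀ i ∈ Z, r i < r p := by
        intro i hi
        rw [hZ, Finset.mem_erase] at hi
        exact lt_of_le_of_ne (hpmax i hi.2) (fun h => hi.1 (hr h))
      have hsum : ∀ i, app (Bmat r) z i = Bmat r i q * z q + (Bmat r i p * z p +
          ∑ j ∈ Z, Bmat r i j * z j) := by
        intro i
        unfold app
        rw [← Finset.sum_subset (Finset.subset_univ Y) (by intro j _ hj; rw [h1 j hj, mul_zero])]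
        rw [← Finset.insert_erase hq, Finset.sum_insert (by simp), ← Finset.insert_erase hp,
          Finset.sum_insert (by simp)]
      have hp0 := h2 p hpY
      have hq0 := h2 q hq
      rw [hsum] at hp0 hq0
      have e1 : Bmat r p q = 1 := by simp [Bmat, hrpq]
      have e2 : Bmat r p p = 0 := by simp [Bmat]
      have e3 : Bmat r q q = 0 := by simp [Bmat]
      have e4 : Bmat r q p = -1 := by simp [Bmat, hrpq, hrpq.not_gt]
      have e5 : ∑ j ∈ Z, Bmat r p j * z j = - ∑ j ∈ Z, z j := by
        rw [← Finset.sum_neg_distrib]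
        apply Finset.sum_congr rfl
        intro j hj
        have := hrZp j hj
        simp [Bmat, this, this.not_gt]
      have e6 : ∑ j ∈ Z, Bmat r q j * z j = - ∑ j ∈ Z, z j := by
        rw [← Finset.sum_neg_distrib]
        apply Finset.sum_congr rfl
        intro j hj
        have := (hrZp j hj).trans hrpq
        simp [Bmat, this, this.not_gt]
      rw [e1, e2, e5] at hp0
      rw [e3, e4, e6] at hq0
      have hpq0 : z p + z q = 0 := by linarith
      set z' : I → ℝ := fun i => if i ∈ Z then z i else 0 with hz'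
      have hz'0 : z' = 0 := by
        apply ih Z hc2
        · intro i hi; simp [hz', hi]
        · intro i hi
          have hiY : i ∈ Y := by
            rw [hZ, Finset.mem_erase, Finset.mem_erase] at hi; exact hi.2.2
          have h3 := h2 i hiY
          rw [hsum] at h3
          have f1 : Bmat r i p = 1 := by simp [Bmat, hrZp i hi]
          have f2 : Bmat r i q = 1 := by simp [Bmat, (hrZp i hi).trans hrpq]
          rw [f1, f2] at h3
          have f3 : app (Bmat r) z' i = ∑ j ∈ Z, Bmat r i j * z j := by
            unfold app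
            rw [← Finset.sum_subset (Finset.subset_univ Z)
              (by intro j _ hj; simp [hz', hj])]
            apply Finset.sum_congr rfl
            intro j hj
            simp [hz', hj]
          rw [f3]; linarith
      have hZ0 : ∀ i ∈ Z, z i = 0 := by
        intro i hi
        have := congrFun hz'0 i
        simpa [hz', hi] using this
      have hs0 : ∑ j ∈ Z, z j = 0 := Finset.sum_eq_zero hZ0
      rw [hs0] at hp0 hq0
      funext i
      by_cases hi : i ∈ Z
      · exact hZ0 i hi
      · by_cases hip : i = p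
        · subst hip; simp only [Pi.zero_apply]; linarith
        · by_cases hiq : i = q
          · subst hiq; simp only [Pi.zero_apply]; linarith
          · apply h1
            intro hiY
            apply hi
            rw [hZ, Finset.mem_erase, Finset.mem_erase]
            exact ⟨hip, hiq, hiY⟩
  intro Y hY z h1 h2
  obtain ⟨n, hn⟩ := hY
  exact key n Y hn z h1 h2

/-- the block matrix -/
noncomputable def blk (Y : Finset I) (M : I → I → ℝ) : Matrix I I ℝ := fun i j =>
  if i ∈ Y ∧ j ∈ Y then M i j else if i = j then 1 else 0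

theorem blk_mulVec_mem (Y : Finset I) (M : I → I → ℝ) (z : I → ℝ) (i : I) (hi : i ∈ Y) :
    (blk Y M).mulVec z i = ∑ j ∈ Y, M i j * z j := by
  simp only [Matrix.mulVec, dotProduct, blk, hi, true_and]
  rw [← Finset.sum_subset (Finset.subset_univ Y)]
  · apply Finset.sum_congr rfl
    intro j hj; simp [hj]
  · intro j _ hj
    have : i ≠ j := by rintro rfl; exact hj hi
    simp [hj, this]

theorem blk_mulVec_notMem (Y : Finset I) (M : I → I → ℝ) (z : I → ℝ) (i : I) (hi : i ∉ Y) :
    (blk Y M).mulVec z i = z i := by
  simp [Matrix.mulVec, dotProduct, blk, hi]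

theorem blk_det_ne (Y : Finset I) (M : I → I → ℝ)
    (h : ∀ z : I → ℝ, (∀ i, i ∉ Y → z i = 0) → (∀ i ∈ Y, app M z i = 0) → z = 0) :
    (blk Y M).det ≠ 0 := by
  classical
  intro hdet
  obtain ⟨v, hv, hv'⟩ := Matrix.exists_mulVec_eq_zero_iff.2 hdet
  apply hv
  have h1 : ∀ i, i ∉ Y → v i = 0 := by
    intro i hi
    have := congrFun hv' i
    rwa [blk_mulVec_notMem Y M v i hi] at this
  apply h v h1
  intro i hi
  have := congrFun hv' i
  rw [blk_mulVec_mem Y M v i hi] at this
  rw [app, ← Finset.sum_subset (Finset.subset_univ Y)]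
  · exact this
  · intro j _ hj; rw [h1 j hj, mul_zero]

theorem of_blk_det_ne (Y : Finset I) (M : I → I → ℝ) (hdet : (blk Y M).det ≠ 0)
    (z : I → ℝ) (h1 : ∀ i, i ∉ Y → z i = 0) (h2 : ∀ i ∈ Y, app M z i = 0) : z = 0 := by
  classical
  by_contra hz
  apply hdet
  rw [← Matrix.exists_mulVec_eq_zero_iff]
  refine ⟨z, hz, ?_⟩
  funext i
  by_cases hi : i ∈ Y
  · rw [blk_mulVec_mem Y M z i hi, Pi.zero_apply, ← h2 i hi, app]
    apply Finset.sum_subset (Finset.subset_univ Y)
    intro j _ hj; rw [h1 j hj, mul_zero]
  · rw [blk_mulVec_notMem Y M z i hi, h1 i hi]; rfl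

theorem generic_eventually (M : I → I → ℝ) (r : I → ℕ) (hr : Function.Injective r) :
    ∀ᶠ ε in 𝓝[>] (0:ℝ), Generic (fun i j => M i j + ε * Bmat r i j) := by
  classical
  have hY : ∀ Y : Finset I, Even Y.card → ∀ᶠ ε in 𝓝[>] (0:ℝ), ∀ z : I → ℝ,
      (∀ i, i ∉ Y → z i = 0) →
      (∀ i ∈ Y, app (fun i j => M i j + ε * Bmat r i j) z i = 0) → z = 0 := by
    intro Y hYe
    let P : Matrix I I (Polynomial ℝ) := fun i j =>
      if i ∈ Y ∧ j ∈ Y then Polynomial.X * Polynomial.C (M i j) + Polynomial.C (Bmat r i j)
      else if i = j then 1 else 0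
    have heval : ∀ δ : ℝ, P.det.eval δ = (blk Y (fun i j => δ * M i j + Bmat r i j)).det := by
      intro δ
      have h := RingHom.map_det (Polynomial.evalRingHom δ) P
      rw [Polynomial.coe_evalRingHom] at h
      rw [h]
      congr 1
      ext i j
      simp only [RingHom.mapMatrix_apply, Matrix.map_apply, P, blk, Polynomial.coe_evalRingHom]
      split_ifs
      · rw [Polynomial.eval_add, Polynomial.eval_mul, Polynomial.eval_X, Polynomial.eval_C,
          Polynomial.eval_C]
      · simp
      · simp
    have hP : P.det ≠ 0 := by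
      intro h
      have h0 := heval 0
      rw [h, Polynomial.eval_zero] at h0
      have h1 := blk_det_ne Y (Bmat r) (Bmat_generic r hr Y hYe)
      apply h1
      rw [h0]
      congr 1
      ext i j
      simp [blk]
    have hfin := Polynomial.finite_setOf_isRoot hP
    obtain ⟨b, hb⟩ := hfin.bddAbove
    have h1 : ∀ᶠ ε in 𝓝[>] (0:ℝ), b < ε⁻¹ :=
      tendsto_inv_nhdsGT_zero.eventually (eventually_gt_atTop b)
    filter_upwards [h1, self_mem_nhdsWithin] with ε hε hpos
    have hε0 : (0:ℝ) < ε := hpos
    have hnr : ¬ P.det.IsRoot ε⁻¹ := fun h => absurd (hb h) (not_le.2 hε)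
    intro z hz1 hz2
    apply of_blk_det_ne Y (fun i j => ε⁻¹ * M i j + Bmat r i j) _ z hz1
    · intro i hi
      have := hz2 i hi
      have h2 : app (fun i j => M i j + ε * Bmat r i j) z i =
          ε * app (fun i j => ε⁻¹ * M i j + Bmat r i j) z i := by
        unfold app
        rw [Finset.mul_sum]
        apply Finset.sum_congr rfl
        intro j _
        field_simp
      rw [h2] at this
      rcases mul_eq_zero.1 this with h | h
      · exact absurd h hε0.ne'
      · exact h
    · rw [← heval]
      exact hnr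
  have hall : ∀ᶠ ε in 𝓝[>] (0:ℝ), ∀ Y : Finset I, Even Y.card → ∀ z : I → ℝ,
      (∀ i, i ∉ Y → z i = 0) →
      (∀ i ∈ Y, app (fun i j => M i j + ε * Bmat r i j) z i = 0) → z = 0 := by
    rw [Filter.eventually_all]
    intro Y
    by_cases h : Even Y.card
    · filter_upwards [hY Y h] with ε hε _
      exact hε
    · exact Filter.Eventually.of_forall (fun _ h' => absurd h' h)
  filter_upwards [hall] with ε hε Y hYe
  exact hε Y hYe

end

variable {C : Type*} [Fintype C] [DecidableEq C]

/-- robust state -/
structure Robust (M : Option C → Option C → ℝ) (T S : Finset C) (e : Bool) : Prop where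
  nonsing : ∀ y : C → ℝ, (∀ v, v ∉ T → y v = 0) →
    (∀ v ∈ T, ∑ u, M (some v) (some u) * y u = 0) → y = 0
  ex : ∃ z, Vec M T z ∧ ∀ v ∈ S, 0 < (if e then (1:ℝ) else -1) * coordD M T z v

theorem robust_eventually (M : Option C → Option C → ℝ) (hM : Skew M) (r : Option C → ℕ)
    (T S : Finset C) (e : Bool) (h : Robust M T S e) :
    ∀ᶠ ε in 𝓝[>] (0:ℝ), ∃ z, Vec (fun i j => M i j + ε * Bmat r i j) T z ∧
      ∀ v ∈ S, 0 < (if e then (1:ℝ) else -1) *
        coordD (fun i j => M i j + ε * Bmat r i j) T z v := by
  classical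
  obtain ⟨hns, z0, hz0, hpos⟩ := h
  set Mε : ℝ → Option C → Option C → ℝ := fun ε i j => M i j + ε * Bmat r i j with hMε
  let N : ℝ → Matrix C C ℝ := fun ε => blk T (fun v u => Mε ε (some v) (some u))
  let b : ℝ → C → ℝ := fun ε v => if v ∈ T then - Mε ε (some v) none else 0
  have hMεc : ∀ i j, Continuous (fun ε => Mε ε i j) := by
    intro i j
    exact continuous_const.add (continuous_id.mul continuous_const)
  have hNc : Continuous N := by
    apply continuous_matrix
    intro v u
    simp only [N, blk]
    split_ifs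
    · exact hMεc _ _
    · exact continuous_const
    · exact continuous_const
  have hbc : Continuous b := by
    apply continuous_pi
    intro v
    simp only [b]
    split_ifs
    · exact (hMεc _ _).neg
    · exact continuous_const
  have hdetc : Continuous (fun ε => (N ε).det) := hNc.matrix_det
  have hM0 : Mε 0 = M := by
    funext i j; simp [hMε]
  have hdet0 : (N 0).det ≠ 0 := by
    apply blk_det_ne
    intro z h1 h2
    apply hns z h1
    intro v hv
    have := h2 v hv
    rw [hM0] at this
    exact this
  let y : ℝ → C → ℝ := fun ε => ((N ε).det)⁻¹ • ((N ε).adjugate.mulVec (b ε))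
  have hyN : ∀ ε, (N ε).det ≠ 0 → (N ε).mulVec (y ε) = b ε := by
    intro ε hε
    simp only [y]
    rw [Matrix.mulVec_smul, Matrix.mulVec_mulVec, Matrix.mul_adjugate, Matrix.smul_mulVec,
      Matrix.one_mulVec, smul_smul, inv_mul_cancel₀ hε, one_smul]
  have hyc : ContinuousAt y 0 := by
    have h1 : ContinuousAt (fun ε => ((N ε).det)⁻¹) 0 := (hdetc.continuousAt).inv₀ hdet0
    have h2 : ContinuousAt (fun ε => (N ε).adjugate.mulVec (b ε)) 0 :=
      (hNc.matrix_adjugate.matrix_mulVec hbc).continuousAt
    exact ContinuousAt.smul h1 h2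
  let z : ℝ → Option C → ℝ := fun ε i => match i with
    | none => 1
    | some v => y ε v
  have hVec : ∀ ε, (N ε).det ≠ 0 → Vec (Mε ε) T (z ε) := by
    intro ε hε
    have h1 := hyN ε hε
    have hsupp : ∀ v, v ∉ T → z ε (some v) = 0 := by
      intro v hv
      have := congrFun h1 v
      simp only [N] at this
      rw [blk_mulVec_notMem T _ _ v hv] at this
      simp only [z, this, b, if_neg hv]
    have hker : ∀ v ∈ T, app (Mε ε) (z ε) (some v) = 0 := by
      intro v hv
      have := congrFun h1 v
      simp only [N] at this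
      rw [blk_mulVec_mem T _ _ v hv] at this
      rw [app, Fintype.sum_option]
      have h2 : ∑ u, Mε ε (some v) (some u) * z ε (some u) = ∑ u ∈ T, Mε ε (some v) (some u) * y ε u := by
        rw [← Finset.sum_subset (Finset.subset_univ T)]
        intro u _ hu; rw [hsupp u hu, mul_zero]
      rw [h2, this]
      simp [z, b, hv]
    refine ⟨rfl, hsupp, hker, ?_⟩
    have hsk : Skew (Mε ε) := by
      intro i j
      simp only [hMε]
      rw [hM i j, Bmat_skew r i j]; ring
    have h0 := pairing_self (Mε ε) hsk (z ε)
    rw [Fintype.sum_option] at h0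
    rw [Finset.sum_eq_zero] at h0
    · simpa [z] using h0
    · intro v _
      by_cases hv : v ∈ T
      · rw [hker v hv, mul_zero]
      · rw [hsupp v hv, zero_mul]
  have hz0' : z 0 = z0 := by
    have h1 := hVec 0 hdet0
    rw [hM0] at h1
    have h2 : (fun v => z 0 (some v) - z0 (some v)) = 0 := by
      apply hns
      · intro v hv
        rw [h1.supp v hv, hz0.supp v hv, sub_zero]
      · intro v hv
        have e1 := h1.ker v hv
        have e2 := hz0.ker v hv
        rw [app, Fintype.sum_option] at e1 e2
        rw [h1.one] at e1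
        rw [hz0.one] at e2
        simp only [mul_sub, Finset.sum_sub_distrib]
        linarith
    funext i
    rcases i with _ | v
    · rw [hz0.one]
    · have := congrFun h2 v
      simp only [Pi.zero_apply] at this
      linarith
  have hzc : ContinuousAt z 0 := by
    rw [continuousAt_pi]
    intro i
    rcases i with _ | v
    · exact continuousAt_const
    · exact (continuousAt_pi.1 hyc v)
  have hDc : ∀ v, ContinuousAt (fun ε => coordD (Mε ε) T (z ε) v) 0 := by
    intro v
    unfold coordD
    split_ifs
    · exact continuousAt_pi.1 hzc (some v)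
    · unfold app
      apply tendsto_finsetSum
      intro i _
      exact ((hMεc _ _).continuousAt).mul (continuousAt_pi.1 hzc _)
  have hev : ∀ᶠ ε in 𝓝 (0:ℝ), (N ε).det ≠ 0 ∧ ∀ v ∈ S, 0 < (if e then (1:ℝ) else -1) *
        coordD (Mε ε) T (z ε) v := by
    rw [Filter.eventually_and]
    constructor
    · exact hdetc.continuousAt.eventually_ne hdet0
    · rw [Filter.eventually_all_finset]
      intro v hv
      have hc : ContinuousAt (fun ε => (if e then (1:ℝ) else -1) * coordD (Mε ε) T (z ε) v) 0 :=
        continuousAt_const.mul (hDc v)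
      have h0 : 0 < (if e then (1:ℝ) else -1) * coordD (Mε 0) T (z 0) v := by
        rw [hM0, hz0']; exact hpos v hv
      exact hc.eventually_const_lt h0
  filter_upwards [nhdsWithin_le_nhds hev] with ε hε
  exact ⟨z ε, hVec ε hε.1, hε.2⟩

/-- the bound for arbitrary skew-symmetric matrices -/
theorem skew_bound (M : Option C → Option C → ℝ) (hM : Skew M) (S0 : Finset C) (k : ℕ)
    (hk : k ≤ Fintype.card C) (hpar : Odd (Fintype.card C - k)) (hS0 : Even (S0.card + k))
    (A : Finset (Finset C × Bool))
    (hA : ∀ q ∈ A, q.1.card = k ∧ Robust M (symmDiff q.1 S0) q.1 q.2) :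
    A.card ≤ 2 * ((Fintype.card C + k - 1) / 2).choose k := by
  classical
  obtain ⟨r, hr⟩ : ∃ r : Option C → ℕ, Function.Injective r :=
    ⟨fun i => (Fintype.equivFin (Option C) i : ℕ), fun i j h => by
      exact (Fintype.equivFin (Option C)).injective (Fin.ext h)⟩
  have h1 := generic_eventually M r hr
  have h2 : ∀ᶠ ε in 𝓝[>] (0:ℝ), ∀ q ∈ A, ∃ z,
      Vec (fun i j => M i j + ε * Bmat r i j) (symmDiff q.1 S0) z ∧
      ∀ v ∈ q.1, 0 < (if q.2 then (1:ℝ) else -1) *
        coordD (fun i j => M i j + ε * Bmat r i j) (symmDiff q.1 S0) z v := by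
    rw [Filter.eventually_all_finset]
    intro q hq
    exact robust_eventually M hM r _ _ _ (hA q hq).2
  obtain ⟨ε, hg, hst⟩ := (h1.and h2).exists
  have hsk : Skew (fun i j => M i j + ε * Bmat r i j) := by
    intro i j
    simp only
    rw [hM i j, Bmat_skew r i j]; ring
  have hcov := cover _ hsk hg S0 k hS0
  refine le_trans (Finset.card_le_card ?_) (count_le k hk hpar _ hcov)
  intro q hq
  rw [Finset.mem_filter]
  refine ⟨Finset.mem_univ _, (hA q hq).1, ?_⟩
  intro v hv
  obtain ⟨z, hz, hp⟩ := hst q hq
  exact ⟨z, hz, hp v hv⟩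

end Pool.Agent.V11208.UB
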